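import Mathlib
import Pool.Agent.Lib.MP_af06f6_co.G.Defs

/-!
# MP_af06f6_co, lower bound: abstract configurations (combinatorics + angle sums) and the hypotheses
('rows') of the discharging theorems.

`α` = vertices, `β` = faces, `I` = incidence, `x v = tan(ρ_v/2)`, `z f = tan(σ_f/2)`.
-/

open Set

namespace Pool.Agent.Lib.MP_af06f6_co

open Classical in
/-- the vertices of the face `f` -/
noncomputable def vof {α β : Type} (V : Finset α) (I : α → β → Prop) (f : β) : Finset α :=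
  V.filter (fun v => I v f)

open Classical in
/-- the faces at the vertex `v` -/
noncomputable def fat {α β : Type} (F : Finset β) (I : α → β → Prop) (v : α) : Finset β :=
  F.filter (fun f => I v f)

/-- adjacent faces (two common vertices) -/
def AdjI {α β : Type} (V : Finset α) (I : α → β → Prop) (f g : β) : Prop :=
  f ≠ g ∧ ∃ v ∈ V, ∃ w ∈ V, v ≠ w ∧ I v f ∧ I v g ∧ I w f ∧ I w g

open Classical in
/-- Configuration: everything the discharging arguments use. -/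
structure Cfg {α β : Type} (V : Finset α) (F : Finset β) (I : α → β → Prop) (x : α → ℝ) (z : β → ℝ) :
    Prop where
  x0 : ∀ v ∈ V, 0 < x v
  x1 : ∀ v ∈ V, x v < 1
  z0 : ∀ f ∈ F, 0 < z f
  z1 : ∀ f ∈ F, z f < 1
  face : ∀ f ∈ F, ∑ v ∈ vof V I f, ph (x v) (z f) = Real.pi
  vert : ∀ v ∈ V, ∑ f ∈ fat F I v, ps (x v) (z f) = Real.pi
  tot : ∑ v ∈ V, ∑ f ∈ fat F I v, om (x v) (z f) = Real.pi
  deg : ∀ v ∈ V, 3 ≤ (fat F I v).card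
  /-- two distinct faces have at most two common vertices -/
  common : ∀ f ∈ F, ∀ g ∈ F, f ≠ g → (V.filter (fun v => I v f ∧ I v g)).card ≤ 2
  /-- at every flag `(v,f)` exactly two faces containing `v` are adjacent to `f` -/
  two : ∀ v ∈ V, ∀ f ∈ F, I v f → ∃ g₁ g₂, g₁ ≠ g₂ ∧
    ∀ g, (g ∈ F ∧ AdjI V I f g ∧ I v g) ↔ (g = g₁ ∨ g = g₂)
  /-- the boundary cycle of `f` is connected -/
  conn : ∀ f ∈ F, ∀ S : Set β, (∃ g ∈ F, AdjI V I f g ∧ g ∈ S) → (∃ g ∈ F, AdjI V I f g ∧ g ∉ S) →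
    ∃ v ∈ V, I v f ∧ ∃ g ∈ F, ∃ g' ∈ F, AdjI V I f g ∧ AdjI V I f g' ∧ I v g ∧ I v g' ∧ g ∈ S ∧ g' ∉ S
  /-- three pairwise adjacent faces with a common vertex `v`: `v` has degree 3 -/
  link : ∀ v ∈ V, ∀ f ∈ F, ∀ g ∈ F, ∀ h ∈ F, I v f → I v g → I v h → AdjI V I f g → AdjI V I g h →
    AdjI V I f h → (fat F I v).card = 3
  cap : ∀ f ∈ F, ∀ g ∈ F, ∀ h ∈ F, f ≠ g → g ≠ h → f ≠ h → z f * z g + z g * z h + z h * z f ≤ 1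

/-- the length `∑_v deg(v) tan ρ_v` -/
noncomputable def Len {α β : Type} (V : Finset α) (F : Finset β) (I : α → β → Prop) (x : α → ℝ) : ℝ :=
  ∑ v ∈ V, ((fat F I v).card : ℝ) * tt (x v)

/-- Rows of a basic certificate (types B and S). `g, G, H, GB, HB, HC0, HC1, GC` are functions of `x`,
`a` a function of `z`; `X` bounds all `x v`, `Z` bounds `z g` for `g ≠ f₀, f₁`. -/
structure RowsB (X Z K : ℝ) (g a G H GB HB HC0 HC1 GC : ℝ → ℝ) : Prop where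
  g0 : ∀ x, 0 < x → x ≤ X → 0 ≤ g x
  a0 : ∀ z, 0 < z → z ≤ Z → 0 ≤ a z
  HC : ∀ x, 0 < x → x ≤ X → 0 ≤ HC0 x + HC1 x
  Na : ∀ x z, 0 < x → x ≤ X → 0 < z → z ≤ Z →
    4 * K * om x z + a z * ph x z + Real.pi * g x ≤ tt x + 3 * g x * ps x z
  No : ∀ x z, 0 < x → x ≤ X → 0 < z → z ≤ Z →
    4 * K * om x z + Real.pi * g x ≤ tt x + 3 * g x * ps x z
  Ao : ∀ x z, 0 < x → x ≤ X → 0 < z → z ≤ Z → 4 * K * om x z + G x * ps x z ≤ tt x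
  Aa : ∀ x z, 0 < x → x ≤ X → 0 < z → z ≤ Z →
    4 * K * om x z + G x * ps x z + H x + a z * (ph x z - Real.pi / 2) ≤ tt x
  Ba : ∀ x z, 0 < x → x ≤ X → 0 < z → z ≤ Z → 4 * K * om x z + GB x * ps x z + a z * ph x z ≤ tt x
  Bc : ∀ x z, 0 < x → x ≤ X → 0 < z → z ≤ Z →
    4 * K * om x z + GB x * ps x z + a z * ph x z + HB x ≤ tt x
  Co : ∀ x z, 0 < x → x ≤ X → 0 < z → z ≤ Z → 4 * K * om x z + GC x * ps x z ≤ tt x
  Ca : ∀ x z, 0 < x → x ≤ X → 0 < z → z ≤ Z →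
    4 * K * om x z + GC x * ps x z + HC0 x + HC1 x + a z * (ph x z - Real.pi / 2) ≤ tt x

/-- Rows of a basic certificate for the two largest faces; `z₀ = z f₀`, `z₁ = z f₁`, `xs` = threshold for
the bonus `κ`. -/
structure RowsBV (X K z₀ z₁ u₀ u₁ Y₀ Y₁ κ xs : ℝ) (G H GB HB HC0 HC1 GC : ℝ → ℝ) : Prop where
  V0 : ∀ x, 0 < x → x ≤ X →
    u₀ * ph x z₀ + 4 * K * om x z₀ - G x * (Real.pi - ps x z₀) - 2 * H x ≤ tt x
  V1 : ∀ x, 0 < x → x ≤ X →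
    u₁ * ph x z₁ + 4 * K * om x z₁ - GB x * (Real.pi - ps x z₁) - 2 * HB x ≤ tt x
  VC0 : ∀ x, 0 < x → x ≤ X →
    u₀ * ph x z₀ + 4 * K * om x z₀ - GC x * (Real.pi / 2 - ps x z₀) - HC0 x - Y₀ ≤ tt x
  VC1 : ∀ x, 0 < x → x ≤ X →
    u₁ * ph x z₁ + 4 * K * om x z₁ - GC x * (Real.pi / 2 - ps x z₁) - HC1 x - Y₁ ≤ tt x
  VC0k : ∀ x, 0 < x → x ≤ X → x ≤ xs →
    u₀ * ph x z₀ + 4 * K * om x z₀ - GC x * (Real.pi / 2 - ps x z₀) - HC0 x - Y₀ + κ ≤ tt x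
  VC1k : ∀ x, 0 < x → x ≤ X → x ≤ xs →
    u₁ * ph x z₁ + 4 * K * om x z₁ - GC x * (Real.pi / 2 - ps x z₁) - HC1 x - Y₁ + κ ≤ tt x

/-- Rows of a certificate of type NE or X, part common to both. Classes of faces `g ≠ f₀,f₁`: `a` adjacent
to `f₀` only, `b` adjacent to `f₁` only, `c` adjacent to both (then `zc ≤ z g`), `o` the others.
`xm` bounds the `x`-value of the two common vertices of `f₀, f₁` from below. `νa = ν_a'`. -/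
structure RowsE (X Z zc xm K νa : ℝ) (g a c d G H G2 H2 H2a G3 H3 GB HB HC0 HC1 GC : ℝ → ℝ)
    (z₀ : ℝ) : Prop where
  g0 : ∀ x, 0 < x → x ≤ X → 0 ≤ g x
  a0 : ∀ z, 0 < z → z ≤ Z → 0 ≤ a z
  νa0 : 0 ≤ νa
  K0 : 0 ≤ K
  Na : ∀ x z, 0 < x → x ≤ X → 0 < z → z ≤ Z →
    4 * K * om x z + a z * ph x z + Real.pi * g x ≤ tt x + 3 * g x * ps x z
  Nc : ∀ x z, 0 < x → x ≤ X → zc ≤ z → z ≤ Z →
    4 * K * om x z + c z * ph x z + Real.pi * g x ≤ tt x + 3 * g x * ps x z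
  No : ∀ x z, 0 < x → x ≤ X → 0 < z → z ≤ Z →
    4 * K * om x z + Real.pi * g x ≤ tt x + 3 * g x * ps x z
  A1c : ∀ x z, 0 < x → x ≤ X → zc ≤ z → z ≤ Z →
    4 * K * om x z + G x * ps x z + H x + c z * (ph x z - Real.pi / 2) + d z ≤ tt x
  /-- restricted row: only for `(x,z)` compatible with two `c` faces and `f₀` at the same vertex -/
  A1o : ∀ x z, 0 < x → x ≤ X → 0 < z → z ≤ Z →
    th x z + 2 * Real.arctan (zc / x) + ps x z₀ ≤ Real.pi →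
    4 * K * om x z + G x * ps x z + 2 * νa ≤ tt x
  A2c : ∀ x z, 0 < x → x ≤ X → zc ≤ z → z ≤ Z →
    4 * K * om x z + G2 x * ps x z + H2 x + c z * (ph x z - Real.pi / 2) + d z ≤ tt x
  A2a : ∀ x z, 0 < x → x ≤ X → 0 < z → z ≤ Z →
    4 * K * om x z + G2 x * ps x z + H2a x + a z * (ph x z - Real.pi / 2) ≤ tt x
  A2o : ∀ x z, 0 < x → x ≤ X → 0 < z → z ≤ Z → 4 * K * om x z + G2 x * ps x z ≤ tt x
  A3a : ∀ x z, 0 < x → x ≤ X → 0 < z → z ≤ Z →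
    4 * K * om x z + G3 x * ps x z + H3 x + a z * (ph x z - Real.pi / 2) ≤ tt x
  A3o : ∀ x z, 0 < x → x ≤ X → 0 < z → z ≤ Z → 4 * K * om x z + G3 x * ps x z ≤ tt x
  B1c : ∀ x z, 0 < x → x ≤ X → zc ≤ z → z ≤ Z →
    4 * K * om x z + GB x * ps x z + HB x + c z * ph x z - d z ≤ tt x
  Cc : ∀ x z, xm ≤ x → x ≤ X → zc ≤ z → z ≤ Z →
    4 * K * om x z + GC x * ps x z + HC0 x + HC1 x + c z * (ph x z - Real.pi / 2) ≤ tt x

/-- Rows for the two largest faces, part common to NE and X. -/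
structure RowsEV (X xm K νa z₀ z₁ u₀ u₁ Y₀ Y₁ κ xs : ℝ) (G H G2 H2 H2a G3 H3 GB HB HC0 HC1 GC : ℝ → ℝ) :
    Prop where
  V0A1 : ∀ x, 0 < x → x ≤ X →
    u₀ * ph x z₀ + 4 * K * om x z₀ - G x * (Real.pi - ps x z₀) - 2 * H x ≤ tt x
  V0A2 : ∀ x, 0 < x → x ≤ X →
    u₀ * ph x z₀ + 4 * K * om x z₀ - G2 x * (Real.pi - ps x z₀) - H2 x - H2a x + νa ≤ tt x
  V0A3 : ∀ x, 0 < x → x ≤ X →
    u₀ * ph x z₀ + 4 * K * om x z₀ - G3 x * (Real.pi - ps x z₀) - 2 * H3 x ≤ tt x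
  V1B1 : ∀ x, 0 < x → x ≤ X →
    u₁ * ph x z₁ + 4 * K * om x z₁ - GB x * (Real.pi - ps x z₁) - 2 * HB x ≤ tt x
  VC0 : ∀ x, xm ≤ x → x ≤ X →
    u₀ * ph x z₀ + 4 * K * om x z₀ - GC x * (Real.pi / 2 - ps x z₀) - HC0 x - Y₀ ≤ tt x
  VC1 : ∀ x, xm ≤ x → x ≤ X →
    u₁ * ph x z₁ + 4 * K * om x z₁ - GC x * (Real.pi / 2 - ps x z₁) - HC1 x - Y₁ ≤ tt x
  VC0k : ∀ x, xm ≤ x → x ≤ X → x ≤ xs →
    u₀ * ph x z₀ + 4 * K * om x z₀ - GC x * (Real.pi / 2 - ps x z₀) - HC0 x - Y₀ + κ ≤ tt x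
  VC1k : ∀ x, xm ≤ x → x ≤ X → x ≤ xs →
    u₁ * ph x z₁ + 4 * K * om x z₁ - GC x * (Real.pi / 2 - ps x z₁) - HC1 x - Y₁ + κ ≤ tt x

/-- Additional rows of the type NE. -/
structure RowsN (X Z zc xm K νa νb z₀ z₁ u₀ u₁ Y₀ Y₁ κ xs : ℝ)
    (a c d GB GB2 HB2 K2 HCa HCb : ℝ → ℝ) : Prop where
  νb0 : 0 ≤ νb
  KZ : 2 * K * Z ≤ 1
  B1o : ∀ x z, 0 < x → x ≤ X → 0 < z → z ≤ Z →
    th x z + 2 * Real.arctan (zc / x) + ps x z₁ ≤ Real.pi →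
    4 * K * om x z + GB x * ps x z + a z * ph x z + 2 * νb ≤ tt x
  B2c : ∀ x z, 0 < x → x ≤ X → zc ≤ z → z ≤ Z →
    4 * K * om x z + GB2 x * ps x z + HB2 x + c z * ph x z - d z ≤ tt x
  B2b : ∀ x z, 0 < x → x ≤ X → 0 < z → z ≤ Z → 4 * K * om x z + GB2 x * ps x z + K2 x ≤ tt x
  B2o : ∀ x z, 0 < x → x ≤ X → 0 < z → z ≤ Z → 4 * K * om x z + GB2 x * ps x z + a z * ph x z ≤ tt x
  Cxa : ∀ x z, xm ≤ x → x ≤ X → 0 < z → z ≤ Z →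
    4 * K * om x z + HCa x + a z * (ph x z - Real.pi / 2) ≤ tt x
  Cxb : ∀ x z, xm ≤ x → x ≤ X → 0 < z → z ≤ Z → 4 * K * om x z + HCb x ≤ tt x
  V1B2 : ∀ x, 0 < x → x ≤ X →
    u₁ * ph x z₁ + 4 * K * om x z₁ - GB2 x * (Real.pi - ps x z₁) - HB2 x - K2 x + νb ≤ tt x
  V1B3 : ∀ x, 0 < x → x ≤ X →
    u₁ * ph x z₁ + 4 * K * om x z₁ - GB2 x * (Real.pi - ps x z₁) - 2 * K2 x ≤ tt x
  VX0 : ∀ x, xm ≤ x → x ≤ X → u₀ * ph x z₀ + 4 * K * om x z₀ - HCa x - Y₀ + νa ≤ tt x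
  VX1 : ∀ x, xm ≤ x → x ≤ X → u₁ * ph x z₁ + 4 * K * om x z₁ - HCb x - Y₁ + νb ≤ tt x
  VX0k : ∀ x, xm ≤ x → x ≤ X → x ≤ xs → u₀ * ph x z₀ + 4 * K * om x z₀ - HCa x - Y₀ + νa + κ ≤ tt x
  VX1k : ∀ x, xm ≤ x → x ≤ X → x ≤ xs → u₁ * ph x z₁ + 4 * K * om x z₁ - HCb x - Y₁ + νb + κ ≤ tt x

/-- The chain around `f` relative to `g` is exact: every face `h ≠ g` adjacent to `f` is adjacent to `g`,
and every vertex of `f` that is not on `g` has degree 3. (`A`-exact: `f = f₀, g = f₁`; `B`-exact: `f = f₁`,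
`g = f₀`.) -/
def ExactAt {α β : Type} (V : Finset α) (F : Finset β) (I : α → β → Prop) (f g : β) : Prop :=
  (∀ h ∈ F, h ≠ g → AdjI V I f h → AdjI V I g h) ∧
  (∀ v ∈ V, I v f → ¬ I v g → (fat F I v).card = 3)

end Pool.Agent.Lib.MP_af06f6_co
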