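import Pool.Agent.Lib.MP_af06f6_co.Chk.Defs
import Pool.Agent.Lib.MP_af06f6_co.D.Defs

/-!
# MP_af06f6_co: certificates of the numeric cells (data structures, Boolean checks, statements of
soundness). `S = 16384` is the scale of `x, z`; coefficients are integers over `10^6`.
-/

namespace Pool.Agent.Lib.MP_af06f6_co

open AF06.Chk

structure P2 where
  a : ℤ
  b : ℤ

structure P3 where
  a : ℤ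
  b : ℤ
  c : ℤ

structure P4 where
  a : ℤ
  b : ℤ
  c : ℤ
  d : ℤ

noncomputable def P2.ev (p : P2) (x : ℝ) : ℝ := (p.a + p.b * x) / 10 ^ 6
noncomputable def P3.ev (p : P3) (x : ℝ) : ℝ := (p.a + p.b * x + p.c * x ^ 2) / 10 ^ 6
noncomputable def P4.ev (p : P4) (x : ℝ) : ℝ := (p.a + p.b * x + p.c * x ^ 2 + p.d * x ^ 3) / 10 ^ 6

def P2.to3 (p : P2) : P3 := ⟨p.a, p.b, 0⟩
def P3.smul (k : ℤ) (p : P3) : P3 := ⟨k * p.a, k * p.b, k * p.c⟩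
def P4.smul (k : ℤ) (p : P4) : P4 := ⟨k * p.a, k * p.b, k * p.c, k * p.d⟩
def P3.add (p q : P3) : P3 := ⟨p.a + q.a, p.b + q.b, p.c + q.c⟩
def P4.add (p q : P4) : P4 := ⟨p.a + q.a, p.b + q.b, p.c + q.c, p.d + q.d⟩
def P3.o : P3 := ⟨0, 0, 0⟩
def P4.o : P4 := ⟨0, 0, 0, 0⟩
/-- constant polynomial `k / 10^6` -/
def P4.k (k : ℤ) : P4 := ⟨k, 0, 0, 0⟩

/-- the row `2x/(1-x²) + p1(x) + p2(z) - f(z) φ - s(x) ψ - 4K ω + (π/2)(q1(x) + q2(z))` -/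
def mkRow (p1 : P4) (p2 f : P3) (s q1 : P4) (q2 : P3) (K : ℕ) : Row :=
  ⟨p1.a, p1.b, p1.c, p1.d, p2.a, p2.b, p2.c, f.a, f.b, f.c, s.a, s.b, s.c, s.d,
    q1.a, q1.b, q1.c, q1.d, q2.a, q2.b, q2.c, K⟩

/-- Bernstein coefficients of `p` on `[lo, hi]/S` are nonnegative (times `S³`) -/
def bern4 (p : P4) (lo hi : ℤ) : Bool :=
  decide (0 ≤ p.a * 16384 ^ 3 + p.b * 16384 ^ 2 * lo + p.c * 16384 * lo ^ 2 + p.d * lo ^ 3) &&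
  decide (0 ≤ p.a * 16384 ^ 3 + p.b * 16384 ^ 2 * hi + p.c * 16384 * hi ^ 2 + p.d * hi ^ 3) &&
  decide (0 ≤ 3 * p.a * 16384 ^ 3 + p.b * 16384 ^ 2 * (hi + 2 * lo) +
    p.c * 16384 * (2 * lo * hi + lo ^ 2) + 3 * p.d * lo ^ 2 * hi) &&
  decide (0 ≤ 3 * p.a * 16384 ^ 3 + p.b * 16384 ^ 2 * (2 * hi + lo) +
    p.c * 16384 * (2 * lo * hi + hi ^ 2) + 3 * p.d * lo * hi ^ 2)

/-- `p ≥ 0` on `[lo, hi]/S`, by bisection -/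
def nn4 (p : P4) : ℕ → ℤ → ℤ → Bool
  | 0, lo, hi => bern4 p lo hi
  | n + 1, lo, hi => bern4 p lo hi || (nn4 p n lo ((lo + hi) / 2) && nn4 p n ((lo + hi) / 2) hi)

def P3.to4 (p : P3) : P4 := ⟨p.a, p.b, p.c, 0⟩

/-- value test at the corner `(z0, z1)/S`: `π (U0 + U1 + 4K) - 2 (Y0 + Y1) + 2 cr ≥ 14.966` and
`U0 + U1 + 4K ≥ 0`; `cr` = sum of the credits (over `10^6`) -/
def valOK (U0 U1 Y0 Y1 : P2) (K cr : ℕ) (z0 z1 : ℤ) : Bool :=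
  decide (0 ≤ (U0.a + U1.a + 4 * K) * 16384 + U0.b * z0 + U1.b * z1) &&
  decide (2 * 1073741824 * ((Y0.a + Y1.a) * 16384 + Y0.b * z0 + Y1.b * z1) +
      14966000 * 16384 * 1073741824 ≤
    3373259426 * ((U0.a + U1.a + 4 * K) * 16384 + U0.b * z0 + U1.b * z1) +
      2 * 1073741824 * 16384 * (cr : ℤ))

def valOK4 (U0 U1 Y0 Y1 : P2) (K cr : ℕ) (z0a z0b z1a z1b : ℕ) : Bool :=
  valOK U0 U1 Y0 Y1 K cr z0a z1a && valOK U0 U1 Y0 Y1 K cr z0a z1b &&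
  valOK U0 U1 Y0 Y1 K cr z0b z1a && valOK U0 U1 Y0 Y1 K cr z0b z1b

/-- `2κ ≤ Y0 + Y1` at a corner -/
def yOK (Y0 Y1 : P2) (kap : ℕ) (z0 z1 : ℤ) : Bool :=
  decide (2 * (kap : ℤ) * 16384 ≤ (Y0.a + Y1.a) * 16384 + Y0.b * z0 + Y1.b * z1)

/-- `z₂` is an upper bound for the third largest `z` if `z₀ ≥ z0a`, `z1a ≤ z₁ ≤ z1b` -/
def z2OK (z0a z1a z1b z2 : ℕ) : Bool :=
  Nat.ble z1b z2 || Nat.ble (16384 ^ 2) (z2 ^ 2 + 2 * z0a * z2) ||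
    Nat.ble (16384 ^ 2) (z2 * (z0a + z1a) + z0a * z1a)

/-- `zc` is a lower bound for the `z` of a face adjacent to both `f₀, f₁`, if `z₀ ≤ z0b`, `z₁ ≤ z1b` and the
common vertices have `x ≥ xm` -/
def zcOK (z0b z1b zc xm : ℕ) : Bool :=
  Nat.ble 1 zc && Nat.ble zc 16384 && Nat.ble 1 xm && Nat.ble xm 13435 && Nat.ble z0b 16384 &&
  Nat.ble z1b 16384 && Nat.ble 1 z0b && Nat.ble 1 z1b &&
  Nat.ble ((16384 ^ 2 + xm ^ 2) ^ 2 * zc * z0b * z1b)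
    ((16384 ^ 2 - zc ^ 2) * ((16384 ^ 2 - z0b ^ 2) * z1b + (16384 ^ 2 - z1b ^ 2) * z0b) * xm ^ 2 +
      (16384 ^ 2 - z0b ^ 2) * (16384 ^ 2 - z1b ^ 2) * zc * xm ^ 2)

/-- imaginary part of `(p + q i)(x + zc i)²(S² + x za i)(x + za i)` is negative (integers) -/
def imNeg (p q x zc za : ℤ) : Bool :=
  let a1 := x * x - zc * zc
  let b1 := 2 * x * zc
  let a2 := p * a1 - q * b1
  let b2 := p * b1 + q * a1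
  let a3 := 16384 ^ 2 * x - x * za * za
  let b3 := 16384 ^ 2 * za + x * x * za
  decide (a2 * b3 + b2 * a3 < 0)

/-- threshold test for the ratio cell `i/32 ≤ z/x ≤ (i+1)/32` (type I) resp. `x/z` (type II) -/
def thr1 (zc za : ℕ) (i : ℕ) : Option ℕ → Bool
  | none => imNeg 32 i 13435 zc za
  | some xm => Nat.beq xm 0 || (Nat.ble xm 13435 && imNeg 32 i xm zc za)

def thr2 (zc za : ℕ) (i : ℕ) : Option ℕ → Bool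
  | none => imNeg (i + 1) 32 13435 zc za
  | some xm => Nat.beq xm 0 || (Nat.ble xm 13435 && imNeg (i + 1) 32 xm zc za)

def thrL (t : ℕ → Option ℕ → Bool) : List (Option ℕ) → ℕ → Bool
  | [], _ => true
  | o :: l, i => t i o && thrL t l (i + 1)

/-- both threshold lists are valid -/
def thrOK (zc za : ℕ) (t1 t2 : List (Option ℕ)) : Bool :=
  Nat.beq t1.length 32 && Nat.beq t2.length 32 && thrL (thr1 zc za) t1 0 && thrL (thr2 zc za) t2 0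

/-! ## Basic certificates (types B, S) -/

structure CertB where
  K : ℕ
  kap : ℕ
  U0 : P2
  U1 : P2
  Y0 : P2
  Y1 : P2
  g : P4
  a : P3
  G : P4
  H : P4
  GB : P4
  HB : P4
  HC0 : P4
  HC1 : P4
  GC : P4

structure DomB where
  z0a : ℕ
  z0b : ℕ
  z1a : ℕ
  z1b : ℕ
  z2 : ℕ
  xs : ℕ

noncomputable def CertB.ok (c : CertB) (D : DomB) : Bool :=
  z2OK D.z0a D.z1a D.z1b D.z2 && Nat.ble D.xs 13435 && Nat.ble D.z0b 16384 && Nat.ble D.z1b 16384 &&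
  Nat.ble 1 D.z0a && Nat.ble 1 D.z1a && Nat.ble D.z2 16384 &&
  valOK4 c.U0 c.U1 c.Y0 c.Y1 c.K c.kap D.z0a D.z0b D.z1a D.z1b &&
  yOK c.Y0 c.Y1 c.kap D.z0a D.z1a && yOK c.Y0 c.Y1 c.kap D.z0a D.z1b &&
  yOK c.Y0 c.Y1 c.kap D.z0b D.z1a && yOK c.Y0 c.Y1 c.kap D.z0b D.z1b &&
  nn4 c.g 8 0 13435 && nn4 c.a.to4 8 0 D.z2 && nn4 (c.HC0.add c.HC1) 8 0 13435 &&
  chkRow (mkRow P4.o P3.o c.a (c.g.smul (-3)) (c.g.smul (-2)) P3.o c.K) 0 13435 0 D.z2 22 &&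
  chkRow (mkRow P4.o P3.o P3.o (c.g.smul (-3)) (c.g.smul (-2)) P3.o c.K) 0 13435 0 D.z2 22 &&
  chkRow (mkRow P4.o P3.o P3.o c.G P4.o P3.o c.K) 0 13435 0 D.z2 22 &&
  chkRow (mkRow (c.H.smul (-1)) P3.o c.a c.G P4.o c.a c.K) 0 13435 0 D.z2 22 &&
  chkRow (mkRow P4.o P3.o c.a c.GB P4.o P3.o c.K) 0 13435 0 D.z2 22 &&
  chkRow (mkRow (c.HB.smul (-1)) P3.o c.a c.GB P4.o P3.o c.K) 0 13435 0 D.z2 22 &&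
  chkRow (mkRow P4.o P3.o P3.o c.GC P4.o P3.o c.K) 0 13435 0 D.z2 22 &&
  chkRow (mkRow ((c.HC0.add c.HC1).smul (-1)) P3.o c.a c.GC P4.o c.a c.K) 0 13435 0 D.z2 22 &&
  chkRow (mkRow (c.H.smul 2) P3.o c.U0.to3 c.G (c.G.smul 2) P3.o c.K) 0 13435 D.z0a D.z0b 22 &&
  chkRow (mkRow (c.HB.smul 2) P3.o c.U1.to3 c.GB (c.GB.smul 2) P3.o c.K) 0 13435 D.z1a D.z1b 22 &&
  chkRow (mkRow c.HC0 c.Y0.to3 c.U0.to3 c.GC c.GC P3.o c.K) 0 13435 D.z0a D.z0b 22 &&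
  chkRow (mkRow c.HC1 c.Y1.to3 c.U1.to3 c.GC c.GC P3.o c.K) 0 13435 D.z1a D.z1b 22 &&
  (Nat.beq c.kap 0 ||
    (chkRow (mkRow (c.HC0.add (P4.k (-c.kap))) c.Y0.to3 c.U0.to3 c.GC c.GC P3.o c.K)
        0 D.xs D.z0a D.z0b 22 &&
      chkRow (mkRow (c.HC1.add (P4.k (-c.kap))) c.Y1.to3 c.U1.to3 c.GC c.GC P3.o c.K)
        0 D.xs D.z1a D.z1b 22))

/-! ## Certificates of types NE and X -/

structure CertE where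
  K : ℕ
  kap : ℕ
  nua : ℕ
  nub : ℕ
  U0 : P2
  U1 : P2
  Y0 : P2
  Y1 : P2
  g : P4
  a : P3
  c : P3
  d : P3
  G : P4
  H : P4
  G2 : P4
  H2 : P4
  H2a : P4
  G3 : P4
  H3 : P4
  GB : P4
  HB : P4
  HC0 : P4
  HC1 : P4
  GC : P4
  GB2 : P4
  HB2 : P4
  K2 : P4
  HCa : P4
  HCb : P4
  ta1 : List (Option ℕ)
  ta2 : List (Option ℕ)
  tb1 : List (Option ℕ)
  tb2 : List (Option ℕ)

structure DomE where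
  z0a : ℕ
  z0b : ℕ
  z1a : ℕ
  z1b : ℕ
  z2 : ℕ
  zc : ℕ
  xm : ℕ
  xs : ℕ

/-- the conditions common to NE and X -/
noncomputable def CertE.ok (c : CertE) (D : DomE) : Bool :=
  z2OK D.z0a D.z1a D.z1b D.z2 && zcOK D.z0b D.z1b D.zc D.xm && Nat.ble D.xs 13435 &&
  Nat.ble 1 D.z0a && Nat.ble 1 D.z1a && Nat.ble D.z2 16384 &&
  nn4 c.g 8 0 13435 && nn4 c.a.to4 8 0 D.z2 && thrOK D.zc D.z0a c.ta1 c.ta2 &&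
  -- Na Nc No
  chkRow (mkRow P4.o P3.o c.a (c.g.smul (-3)) (c.g.smul (-2)) P3.o c.K) 0 13435 0 D.z2 22 &&
  chkRow (mkRow P4.o P3.o c.c (c.g.smul (-3)) (c.g.smul (-2)) P3.o c.K) 0 13435 D.zc D.z2 22 &&
  chkRow (mkRow P4.o P3.o P3.o (c.g.smul (-3)) (c.g.smul (-2)) P3.o c.K) 0 13435 0 D.z2 22 &&
  -- A1c A1o A2c A2a A2o A3a A3o
  chkRow (mkRow (c.H.smul (-1)) (c.d.smul (-1)) c.c c.G P4.o c.c c.K) 0 13435 D.zc D.z2 22 &&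
  chkRes (mkRow (P4.k (-2 * c.nua)) P3.o P3.o c.G P4.o P3.o c.K) 0 13435 0 D.z2 22 c.ta1 c.ta2 &&
  chkRow (mkRow (c.H2.smul (-1)) (c.d.smul (-1)) c.c c.G2 P4.o c.c c.K) 0 13435 D.zc D.z2 22 &&
  chkRow (mkRow (c.H2a.smul (-1)) P3.o c.a c.G2 P4.o c.a c.K) 0 13435 0 D.z2 22 &&
  chkRow (mkRow P4.o P3.o P3.o c.G2 P4.o P3.o c.K) 0 13435 0 D.z2 22 &&
  chkRow (mkRow (c.H3.smul (-1)) P3.o c.a c.G3 P4.o c.a c.K) 0 13435 0 D.z2 22 &&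
  chkRow (mkRow P4.o P3.o P3.o c.G3 P4.o P3.o c.K) 0 13435 0 D.z2 22 &&
  -- B1c Cc
  chkRow (mkRow (c.HB.smul (-1)) c.d c.c c.GB P4.o P3.o c.K) 0 13435 D.zc D.z2 22 &&
  chkRow (mkRow ((c.HC0.add c.HC1).smul (-1)) P3.o c.c c.GC P4.o c.c c.K) D.xm 13435 D.zc D.z2 22 &&
  -- V0A1 V0A2 V0A3 V1B1
  chkRow (mkRow (c.H.smul 2) P3.o c.U0.to3 c.G (c.G.smul 2) P3.o c.K) 0 13435 D.z0a D.z0b 22 &&
  chkRow (mkRow ((c.H2.add c.H2a).add (P4.k (-c.nua))) P3.o c.U0.to3 c.G2 (c.G2.smul 2) P3.o c.K)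
    0 13435 D.z0a D.z0b 22 &&
  chkRow (mkRow (c.H3.smul 2) P3.o c.U0.to3 c.G3 (c.G3.smul 2) P3.o c.K) 0 13435 D.z0a D.z0b 22 &&
  chkRow (mkRow (c.HB.smul 2) P3.o c.U1.to3 c.GB (c.GB.smul 2) P3.o c.K) 0 13435 D.z1a D.z1b 22 &&
  -- VC0 VC1 and the bonus versions
  chkRow (mkRow c.HC0 c.Y0.to3 c.U0.to3 c.GC c.GC P3.o c.K) D.xm 13435 D.z0a D.z0b 22 &&
  chkRow (mkRow c.HC1 c.Y1.to3 c.U1.to3 c.GC c.GC P3.o c.K) D.xm 13435 D.z1a D.z1b 22 &&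
  (Nat.beq c.kap 0 ||
    (chkRow (mkRow (c.HC0.add (P4.k (-c.kap))) c.Y0.to3 c.U0.to3 c.GC c.GC P3.o c.K)
        D.xm D.xs D.z0a D.z0b 22 &&
      chkRow (mkRow (c.HC1.add (P4.k (-c.kap))) c.Y1.to3 c.U1.to3 c.GC c.GC P3.o c.K)
        D.xm D.xs D.z1a D.z1b 22))

/-- the additional conditions of the type NE -/
noncomputable def CertE.okN (c : CertE) (D : DomE) : Bool :=
  Nat.ble (2 * c.K * D.z2) (10 ^ 6 * 16384) && thrOK D.zc D.z1a c.tb1 c.tb2 &&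
  -- B1o B2c B2b B2o
  chkRes (mkRow (P4.k (-2 * c.nub)) P3.o c.a c.GB P4.o P3.o c.K) 0 13435 0 D.z2 22 c.tb1 c.tb2 &&
  chkRow (mkRow (c.HB2.smul (-1)) c.d c.c c.GB2 P4.o P3.o c.K) 0 13435 D.zc D.z2 22 &&
  chkRow (mkRow (c.K2.smul (-1)) P3.o P3.o c.GB2 P4.o P3.o c.K) 0 13435 0 D.z2 22 &&
  chkRow (mkRow P4.o P3.o c.a c.GB2 P4.o P3.o c.K) 0 13435 0 D.z2 22 &&
  -- Cxa Cxb
  chkRow (mkRow (c.HCa.smul (-1)) P3.o c.a P4.o P4.o c.a c.K) D.xm 13435 0 D.z2 22 &&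
  chkRow (mkRow (c.HCb.smul (-1)) P3.o P3.o P4.o P4.o P3.o c.K) D.xm 13435 0 D.z2 22 &&
  -- V1B2 V1B3
  chkRow (mkRow ((c.HB2.add c.K2).add (P4.k (-c.nub))) P3.o c.U1.to3 c.GB2 (c.GB2.smul 2) P3.o c.K)
    0 13435 D.z1a D.z1b 22 &&
  chkRow (mkRow (c.K2.smul 2) P3.o c.U1.to3 c.GB2 (c.GB2.smul 2) P3.o c.K) 0 13435 D.z1a D.z1b 22 &&
  -- VX0 VX1 and the bonus versions
  chkRow (mkRow (c.HCa.add (P4.k (-c.nua))) c.Y0.to3 c.U0.to3 P4.o P4.o P3.o c.K)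
    D.xm 13435 D.z0a D.z0b 22 &&
  chkRow (mkRow (c.HCb.add (P4.k (-c.nub))) c.Y1.to3 c.U1.to3 P4.o P4.o P3.o c.K)
    D.xm 13435 D.z1a D.z1b 22 &&
  (Nat.beq c.kap 0 ||
    (chkRow (mkRow (c.HCa.add (P4.k (-c.nua - c.kap))) c.Y0.to3 c.U0.to3 P4.o P4.o P3.o c.K)
        D.xm D.xs D.z0a D.z0b 22 &&
      chkRow (mkRow (c.HCb.add (P4.k (-c.nub - c.kap))) c.Y1.to3 c.U1.to3 P4.o P4.o P3.o c.K)
        D.xm D.xs D.z1a D.z1b 22)) &&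
  valOK4 c.U0 c.U1 c.Y0 c.Y1 c.K (c.kap + c.nua + c.nub) D.z0a D.z0b D.z1a D.z1b

/-- the additional conditions of the type X (only the value) -/
def CertE.okX (c : CertE) (D : DomE) : Bool :=
  valOK4 c.U0 c.U1 c.Y0 c.Y1 c.K (c.kap + c.nua) D.z0a D.z0b D.z1a D.z1b

/-! ## Soundness statements -/

/-- CS1: `nn4`. -/
def Stm_CS1 : Prop := ∀ (p : P4) (n lo hi : ℕ), nn4 p n lo hi = true → ∀ x : ℝ,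
  (lo : ℝ) / 16384 ≤ x → x ≤ (hi : ℝ) / 16384 → 0 ≤ p.ev x

/-- CS2: restricted rows. For a corner `(x,z)` with `th x z + 2 arctan(zc/x) + ps x z₀ ≤ π`, `z₀ ≥ za`: let
`i` be the ratio cell of `z/x` (if `z ≤ x`) or `x/z`. `F(x) = θ_lo + 2arctan(zc/x) + arctan(x za) + arctan(za/x)`
is decreasing in `x`, `θ_lo = arctan(i/32)` resp. `π/2 - arctan((i+1)/32) = arctan(32/(i+1))`; `thr` says
`sin F(xm) < 0`, with `0 < F(xm) < 2π`, hence `F(xm) > π ≥ F(x)`, so `x > xm`. -/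
def Stm_CS2 : Prop := ∀ (zc za : ℕ) (t1 t2 : List (Option ℕ)), 1 ≤ zc → 1 ≤ za → za ≤ 16384 →
  thrOK zc za t1 t2 = true → ∀ x z z₀ : ℝ, 0 < x → x ≤ (13435 : ℝ) / 16384 → 0 < z → z ≤ 1 →
  (za : ℝ) / 16384 ≤ z₀ → z₀ < 1 →
  th x z + 2 * Real.arctan ((zc : ℝ) / 16384 / x) + ps x z₀ ≤ Real.pi →
  (∃ i xm : ℕ, t1[i]? = some (some xm) ∧ (i : ℝ) / 32 ≤ z / x ∧ z / x ≤ ((i : ℝ) + 1) / 32 ∧
    (xm : ℝ) / 16384 ≤ x) ∨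
  (∃ i xm : ℕ, t2[i]? = some (some xm) ∧ (i : ℝ) / 32 ≤ x / z ∧ x / z ≤ ((i : ℝ) + 1) / 32 ∧
    (xm : ℝ) / 16384 ≤ x)

/-- CS3: values. -/
def Stm_CS3 : Prop := ∀ (U0 U1 Y0 Y1 : P2) (K cr z0a z0b z1a z1b : ℕ),
  valOK4 U0 U1 Y0 Y1 K cr z0a z0b z1a z1b = true → ∀ z₀ z₁ : ℝ,
  (z0a : ℝ) / 16384 ≤ z₀ → z₀ ≤ (z0b : ℝ) / 16384 → (z1a : ℝ) / 16384 ≤ z₁ → z₁ ≤ (z1b : ℝ) / 16384 →
  14.966 ≤ Real.pi * (U0.ev z₀ + U1.ev z₁ + 4 * ((K : ℝ) / 10 ^ 6)) - 2 * (Y0.ev z₀ + Y1.ev z₁) +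
    2 * ((cr : ℝ) / 10 ^ 6)

/-- CS4: third largest face. Proof: `z ≤ z₁ ≤ z1b`, and the three caps inequality
`z₀z₁ + z₁z + z z₀ ≤ 1` with `z₁ ≥ z`, `z₀ ≥ z0a`, `z₁ ≥ z1a`. -/
def Stm_CS4 : Prop := ∀ (z0a z1a z1b z2 : ℕ), z2OK z0a z1a z1b z2 = true → 1 ≤ z0a → 1 ≤ z1a →
  ∀ z₀ z₁ z : ℝ, (z0a : ℝ) / 16384 ≤ z₀ → (z1a : ℝ) / 16384 ≤ z₁ → z₁ ≤ (z1b : ℝ) / 16384 →
  0 < z → z ≤ z₁ → z₀ * z₁ + z₁ * z + z * z₀ ≤ 1 → z ≤ (z2 : ℝ) / 16384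

/-- CS8: `zc`. With `cot z = (1-z²)/(2z)` (decreasing): from `cot z (cot z₀ + cot z₁) ≤ csc² - cot z₀ cot z₁`, `csc² =
(1+xm²)²/(4xm²)`, and `cot z₀ ≥ cot z0b`, `cot z₁ ≥ cot z1b`: `(csc² - c₀c₁)/(c₀+c₁)` is decreasing in `c₀` and `c₁`
(`c₀ + c₁ > 0` as `z₀ < 1`; if both boundary values are `0` the Boolean test fails), so `cot z ≤` its value at the
boundary `≤ cot zc`. -/
def Stm_CS8 : Prop := ∀ (z0b z1b zc xm : ℕ), zcOK z0b z1b zc xm = true → ∀ z₀ z₁ z : ℝ, 0 < z₀ → z₀ < 1 → 0 < z₁ →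
  z₁ < 1 → z₀ ≤ (z0b : ℝ) / 16384 → z₁ ≤ (z1b : ℝ) / 16384 → 0 < z → z < 1 →
  (1 - z ^ 2) / (2 * z) * ((1 - z₀ ^ 2) / (2 * z₀) + (1 - z₁ ^ 2) / (2 * z₁)) ≤
    (1 + ((xm : ℝ) / 16384) ^ 2) ^ 2 / (4 * ((xm : ℝ) / 16384) ^ 2) -
      (1 - z₀ ^ 2) / (2 * z₀) * ((1 - z₁ ^ 2) / (2 * z₁)) →
  (zc : ℝ) / 16384 ≤ z

/-- CS5: basic certificates. -/
def Stm_CS5 : Prop := ∀ (c : CertB) (D : DomB), c.ok D = true → ∀ z₀ z₁ : ℝ,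
  (D.z0a : ℝ) / 16384 ≤ z₀ → z₀ ≤ (D.z0b : ℝ) / 16384 → (D.z1a : ℝ) / 16384 ≤ z₁ →
  z₁ ≤ (D.z1b : ℝ) / 16384 →
  RowsB (13435 / 16384) ((D.z2 : ℝ) / 16384) ((c.K : ℝ) / 10 ^ 6) c.g.ev c.a.ev c.G.ev c.H.ev c.GB.ev
    c.HB.ev c.HC0.ev c.HC1.ev c.GC.ev ∧
  RowsBV (13435 / 16384) ((c.K : ℝ) / 10 ^ 6) z₀ z₁ (c.U0.ev z₀) (c.U1.ev z₁) (c.Y0.ev z₀) (c.Y1.ev z₁)
    ((c.kap : ℝ) / 10 ^ 6) ((D.xs : ℝ) / 16384) c.G.ev c.H.ev c.GB.ev c.HB.ev c.HC0.ev c.HC1.ev c.GC.ev ∧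
  2 * ((c.kap : ℝ) / 10 ^ 6) ≤ c.Y0.ev z₀ + c.Y1.ev z₁ ∧
  14.966 ≤ Real.pi * (c.U0.ev z₀ + c.U1.ev z₁ + 4 * ((c.K : ℝ) / 10 ^ 6)) -
    2 * (c.Y0.ev z₀ + c.Y1.ev z₁) + 2 * ((c.kap : ℝ) / 10 ^ 6)

/-- CS6: certificates of type E, common part. -/
def Stm_CS6 : Prop := ∀ (c : CertE) (D : DomE), c.ok D = true → ∀ z₀ z₁ : ℝ,
  (D.z0a : ℝ) / 16384 ≤ z₀ → z₀ ≤ (D.z0b : ℝ) / 16384 → z₀ < 1 → (D.z1a : ℝ) / 16384 ≤ z₁ →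
  z₁ ≤ (D.z1b : ℝ) / 16384 →
  RowsE (13435 / 16384) ((D.z2 : ℝ) / 16384) ((D.zc : ℝ) / 16384) ((D.xm : ℝ) / 16384)
    ((c.K : ℝ) / 10 ^ 6) ((c.nua : ℝ) / 10 ^ 6) c.g.ev c.a.ev c.c.ev c.d.ev c.G.ev c.H.ev c.G2.ev c.H2.ev
    c.H2a.ev c.G3.ev c.H3.ev c.GB.ev c.HB.ev c.HC0.ev c.HC1.ev c.GC.ev z₀ ∧
  RowsEV (13435 / 16384) ((D.xm : ℝ) / 16384) ((c.K : ℝ) / 10 ^ 6) ((c.nua : ℝ) / 10 ^ 6) z₀ z₁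
    (c.U0.ev z₀) (c.U1.ev z₁) (c.Y0.ev z₀) (c.Y1.ev z₁) ((c.kap : ℝ) / 10 ^ 6) ((D.xs : ℝ) / 16384)
    c.G.ev c.H.ev c.G2.ev c.H2.ev c.H2a.ev c.G3.ev c.H3.ev c.GB.ev c.HB.ev c.HC0.ev c.HC1.ev c.GC.ev

/-- CS7: certificates of type NE, additional part. -/
def Stm_CS7 : Prop := ∀ (c : CertE) (D : DomE), c.ok D = true → c.okN D = true → ∀ z₀ z₁ : ℝ,
  (D.z0a : ℝ) / 16384 ≤ z₀ → z₀ ≤ (D.z0b : ℝ) / 16384 → (D.z1a : ℝ) / 16384 ≤ z₁ →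
  z₁ ≤ (D.z1b : ℝ) / 16384 → z₁ < 1 →
  RowsN (13435 / 16384) ((D.z2 : ℝ) / 16384) ((D.zc : ℝ) / 16384) ((D.xm : ℝ) / 16384)
    ((c.K : ℝ) / 10 ^ 6) ((c.nua : ℝ) / 10 ^ 6) ((c.nub : ℝ) / 10 ^ 6) z₀ z₁
    (c.U0.ev z₀) (c.U1.ev z₁) (c.Y0.ev z₀) (c.Y1.ev z₁) ((c.kap : ℝ) / 10 ^ 6) ((D.xs : ℝ) / 16384)
    c.a.ev c.c.ev c.d.ev c.GB.ev c.GB2.ev c.HB2.ev c.K2.ev c.HCa.ev c.HCb.ev ∧
  14.966 ≤ Real.pi * (c.U0.ev z₀ + c.U1.ev z₁ + 4 * ((c.K : ℝ) / 10 ^ 6)) -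
    2 * (c.Y0.ev z₀ + c.Y1.ev z₁) + 2 * ((c.kap : ℝ) / 10 ^ 6) + 2 * ((c.nua : ℝ) / 10 ^ 6) +
    2 * ((c.nub : ℝ) / 10 ^ 6)

end Pool.Agent.Lib.MP_af06f6_co
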