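import Pool.Agent.Lib.MP_af06f6_co.Chk.Sound
import Pool.Agent.Lib.MP_af06f6_co.D.Cert

/-!
# MP_af06f6_co: soundness of the certificates (`Stm_CS1` … `Stm_CS7`)
-/

set_option linter.unusedSimpArgs false
set_option linter.unusedVariables false

namespace Pool.Agent.Lib.MP_af06f6_co

open AF06.Chk Real

/-! ### CS1 -/

theorem bern4_real (a b c d : ℝ) (lo hi u : ℝ) (h0 : lo ≤ u) (h1 : u ≤ hi)
    (k0 : 0 ≤ a + b * lo + c * lo ^ 2 + d * lo ^ 3)
    (k3 : 0 ≤ a + b * hi + c * hi ^ 2 + d * hi ^ 3)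
    (k1 : 0 ≤ 3 * a + b * (hi + 2 * lo) + c * (2 * lo * hi + lo ^ 2) + 3 * d * lo ^ 2 * hi)
    (k2 : 0 ≤ 3 * a + b * (2 * hi + lo) + c * (2 * lo * hi + hi ^ 2) + 3 * d * lo * hi ^ 2) :
    0 ≤ a + b * u + c * u ^ 2 + d * u ^ 3 := by
  rcases eq_or_lt_of_le (h0.trans h1) with h | h
  · have : u = lo := le_antisymm (by linarith) h0
    rw [this]; exact k0
  · have hp : 0 < (hi - lo) ^ 3 := pow_pos (by linarith) 3
    have hu : 0 ≤ hi - u := by linarith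
    have hl : 0 ≤ u - lo := by linarith
    have key : (hi - lo) ^ 3 * (a + b * u + c * u ^ 2 + d * u ^ 3) =
        (a + b * lo + c * lo ^ 2 + d * lo ^ 3) * (hi - u) ^ 3 +
        (3 * a + b * (hi + 2 * lo) + c * (2 * lo * hi + lo ^ 2) + 3 * d * lo ^ 2 * hi) *
          ((hi - u) ^ 2 * (u - lo)) +
        (3 * a + b * (2 * hi + lo) + c * (2 * lo * hi + hi ^ 2) + 3 * d * lo * hi ^ 2) *
          ((hi - u) * (u - lo) ^ 2) +
        (a + b * hi + c * hi ^ 2 + d * hi ^ 3) * (u - lo) ^ 3 := by ring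
    have : 0 ≤ (hi - lo) ^ 3 * (a + b * u + c * u ^ 2 + d * u ^ 3) := by
      rw [key]; positivity
    exact nonneg_of_mul_nonneg_right this hp

theorem bern4_sound (p : P4) (lo hi : ℤ) (h : bern4 p lo hi = true) (x : ℝ)
    (h0 : (lo : ℝ) / 16384 ≤ x) (h1 : x ≤ (hi : ℝ) / 16384) : 0 ≤ p.ev x := by
  simp only [bern4, Bool.and_eq_true, decide_eq_true_eq] at h
  obtain ⟨⟨⟨k0, k3⟩, k1⟩, k2⟩ := h
  have k0' : (0 : ℝ) ≤ p.a * 16384 ^ 3 + p.b * 16384 ^ 2 * lo + p.c * 16384 * lo ^ 2 +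
    p.d * lo ^ 3 := by exact_mod_cast k0
  have k3' : (0 : ℝ) ≤ p.a * 16384 ^ 3 + p.b * 16384 ^ 2 * hi + p.c * 16384 * hi ^ 2 +
    p.d * hi ^ 3 := by exact_mod_cast k3
  have k1' : (0 : ℝ) ≤ 3 * p.a * 16384 ^ 3 + p.b * 16384 ^ 2 * (hi + 2 * lo) +
    p.c * 16384 * (2 * lo * hi + lo ^ 2) + 3 * p.d * lo ^ 2 * hi := by exact_mod_cast k1
  have k2' : (0 : ℝ) ≤ 3 * p.a * 16384 ^ 3 + p.b * 16384 ^ 2 * (2 * hi + lo) +
    p.c * 16384 * (2 * lo * hi + hi ^ 2) + 3 * p.d * lo * hi ^ 2 := by exact_mod_cast k2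
  have := bern4_real (p.a * 16384 ^ 3) (p.b * 16384 ^ 2) (p.c * 16384) p.d lo hi (x * 16384)
    (by rw [div_le_iff₀ (by norm_num)] at h0; exact h0)
    (by rw [le_div_iff₀ (by norm_num)] at h1; exact h1) k0' k3' (by linarith) (by linarith)
  have e : p.ev x = (p.a * 16384 ^ 3 + p.b * 16384 ^ 2 * (x * 16384) +
      p.c * 16384 * (x * 16384) ^ 2 + p.d * (x * 16384) ^ 3) / (16384 ^ 3 * 10 ^ 6) := by
    unfold P4.ev
    field_simp
  rw [e]
  positivity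

theorem nn4_sound (p : P4) (n : ℕ) : ∀ (lo hi : ℤ), nn4 p n lo hi = true → ∀ x : ℝ,
    (lo : ℝ) / 16384 ≤ x → x ≤ (hi : ℝ) / 16384 → 0 ≤ p.ev x := by
  induction n with
  | zero => intro lo hi h x h0 h1; exact bern4_sound p lo hi h x h0 h1
  | succ n ih =>
    intro lo hi h x h0 h1
    simp only [nn4, Bool.or_eq_true, Bool.and_eq_true] at h
    rcases h with h | ⟨h, h'⟩
    · exact bern4_sound p lo hi h x h0 h1
    · rcases le_total x ((((lo + hi) / 2 : ℤ) : ℝ) / 16384) with hx | hx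
      · exact ih lo _ h x h0 hx
      · exact ih _ hi h' x hx h1

theorem cs1 : Stm_CS1 := by
  intro p n lo hi h x h0 h1
  exact nn4_sound p n lo hi h x (by rw [Int.cast_natCast]; exact h0)
    (by rw [Int.cast_natCast]; exact h1)

/-! ### CS2 -/

theorem polar (p q : ℝ) (hp : 0 < p) : ∃ r : ℝ, 0 < r ∧ p = r * cos (arctan (q / p)) ∧
    q = r * sin (arctan (q / p)) := by
  have hc := cos_arctan_pos (q / p)
  refine ⟨p / cos (arctan (q / p)), by positivity, ?_, ?_⟩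
  · field_simp
  · have h := tan_arctan (q / p)
    rw [tan_eq_sin_div_cos] at h
    rw [div_mul_eq_mul_div, mul_div_assoc, h]
    field_simp

theorem psi_anti (z x y : ℝ) (hz : 0 < z) (hz1 : z ≤ 1) (hx : 0 < x) (hxy : x ≤ y) (hy : y < 1) :
    arctan (y * z) + arctan (z / y) ≤ arctan (x * z) + arctan (z / x) := by
  have hy0 : 0 < y := hx.trans_le hxy
  rcases eq_or_lt_of_le hz1 with h | h
  · subst h
    have e1 : arctan (x * 1) + arctan (1 / x) = π / 2 := by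
      rw [one_div, arctan_inv_of_pos hx]; ring_nf
    have e2 : arctan (y * 1) + arctan (1 / y) = π / 2 := by
      rw [one_div, arctan_inv_of_pos hy0]; ring_nf
    rw [e1, e2]
  · have hzz : z * z < 1 := by nlinarith
    have a1 : x * z * (z / x) = z * z := by field_simp
    have a2 : y * z * (z / y) = z * z := by field_simp
    rw [arctan_add (by rw [a2]; exact hzz), arctan_add (by rw [a1]; exact hzz), a1, a2]
    apply arctan_mono
    apply div_le_div_of_nonneg_right _ (by linarith)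
    have e : x * z + z / x - (y * z + z / y) = z * ((y - x) * (1 - x * y)) / (x * y) := by
      field_simp
      ring
    have : 0 ≤ z * ((y - x) * (1 - x * y)) / (x * y) := by
      have h1 : 0 ≤ y - x := by linarith
      have h2 : 0 ≤ 1 - x * y := by nlinarith
      positivity
    linarith

theorem psi_le (z x : ℝ) (hz : 0 < z) (hz1 : z ≤ 1) (hx : 0 < x) :
    arctan (x * z) + arctan (z / x) ≤ π / 2 := by
  have h1 : arctan (x * z) ≤ arctan ((z / x)⁻¹) := by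
    apply arctan_mono
    rw [inv_div, le_div_iff₀ hz]
    nlinarith [mul_pos hx hz]
  rw [arctan_inv_of_pos (by positivity)] at h1
  linarith

/-- `Im < 0` implies that the argument sum is `> π`. -/
theorem imNeg_real (p q x zc za : ℝ) (hp : 0 < p) (hq : 0 ≤ q) (hx : 0 < x) (hzc : 0 < zc)
    (hza : 0 < za) (hza1 : za ≤ 16384)
    (h : (p * (x * x - zc * zc) - q * (2 * x * zc)) * (16384 ^ 2 * za + x * x * za) +
      (p * (2 * x * zc) + q * (x * x - zc * zc)) * (16384 ^ 2 * x - x * za * za) < 0) :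
    π < arctan (q / p) + 2 * arctan (zc / x) +
      (arctan (x / 16384 * (za / 16384)) + arctan (za / 16384 / (x / 16384))) := by
  obtain ⟨r1, hr1, hp1, hq1⟩ := polar p q hp
  obtain ⟨r2, hr2, hp2, hq2⟩ := polar x zc hx
  obtain ⟨r3, hr3, hp3, hq3⟩ := polar (16384 ^ 2) (x * za) (by norm_num)
  obtain ⟨r4, hr4, hp4, hq4⟩ := polar x za hx
  have e3 : x / 16384 * (za / 16384) = x * za / 16384 ^ 2 := by ring
  have e4 : za / 16384 / (x / 16384) = za / x := by field_simp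
  rw [e3, e4]
  set α := arctan (q / p) with hα
  set β := arctan (zc / x) with hβ
  set γ := arctan (x * za / 16384 ^ 2) with hγ
  set δ := arctan (za / x) with hδ
  have b1 : 0 ≤ α := arctan_nonneg.mpr (by positivity)
  have b2 : 0 < β := arctan_pos.mpr (by positivity)
  have b3 : 0 < γ := arctan_pos.mpr (by positivity)
  have b4 : 0 < δ := arctan_pos.mpr (by positivity)
  have c1 : α < π / 2 := arctan_lt_pi_div_two _
  have c2 : β < π / 2 := arctan_lt_pi_div_two _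
  have c3 : γ + δ ≤ π / 2 := by
    have := psi_le (za / 16384) (x / 16384) (by positivity)
      (by rw [div_le_one (by norm_num)]; exact hza1) (by positivity)
    rw [e3, e4] at this
    exact this
  by_contra hcon
  push Not at hcon
  have hs : 0 ≤ sin (α + 2 * β + (γ + δ)) := sin_nonneg_of_nonneg_of_le_pi (by linarith) hcon
  have key : (p * (x * x - zc * zc) - q * (2 * x * zc)) * (16384 ^ 2 * za + x * x * za) +
      (p * (2 * x * zc) + q * (x * x - zc * zc)) * (16384 ^ 2 * x - x * za * za) =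
      r1 * r2 ^ 2 * r3 * r4 * sin (α + 2 * β + (γ + δ)) := by
    have f3 : 16384 ^ 2 * za + x * x * za = r3 * r4 * sin (γ + δ) := by
      rw [sin_add]
      calc 16384 ^ 2 * za + x * x * za = 16384 ^ 2 * za + (x * za) * x := by ring
        _ = r3 * cos γ * (r4 * sin δ) + (r3 * sin γ) * (r4 * cos δ) := by
            rw [← hp3, ← hq3, ← hp4, ← hq4]
        _ = _ := by ring
    have f4 : 16384 ^ 2 * x - x * za * za = r3 * r4 * cos (γ + δ) := by
      rw [cos_add]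
      calc 16384 ^ 2 * x - x * za * za = 16384 ^ 2 * x - (x * za) * za := by ring
        _ = r3 * cos γ * (r4 * cos δ) - (r3 * sin γ) * (r4 * sin δ) := by
            rw [← hp3, ← hq3, ← hp4, ← hq4]
        _ = _ := by ring
    have f1 : x * x - zc * zc = r2 ^ 2 * cos (2 * β) := by
      rw [cos_two_mul']
      calc x * x - zc * zc = r2 * cos β * (r2 * cos β) - r2 * sin β * (r2 * sin β) := by
            rw [← hp2, ← hq2]
        _ = _ := by ring
    have f2 : 2 * x * zc = r2 ^ 2 * sin (2 * β) := by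
      rw [sin_two_mul]
      calc 2 * x * zc = 2 * (r2 * cos β) * (r2 * sin β) := by rw [← hp2, ← hq2]
        _ = _ := by ring
    rw [f3, f4, f1, f2]
    have f5 : p * (r2 ^ 2 * cos (2 * β)) - q * (r2 ^ 2 * sin (2 * β)) =
        r1 * r2 ^ 2 * cos (α + 2 * β) := by
      rw [cos_add]
      calc p * (r2 ^ 2 * cos (2 * β)) - q * (r2 ^ 2 * sin (2 * β)) =
            (r1 * cos α) * (r2 ^ 2 * cos (2 * β)) - (r1 * sin α) * (r2 ^ 2 * sin (2 * β)) := by
            rw [← hp1, ← hq1]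
        _ = _ := by ring
    have f6 : p * (r2 ^ 2 * sin (2 * β)) + q * (r2 ^ 2 * cos (2 * β)) =
        r1 * r2 ^ 2 * sin (α + 2 * β) := by
      rw [sin_add]
      calc p * (r2 ^ 2 * sin (2 * β)) + q * (r2 ^ 2 * cos (2 * β)) =
            (r1 * cos α) * (r2 ^ 2 * sin (2 * β)) + (r1 * sin α) * (r2 ^ 2 * cos (2 * β)) := by
            rw [← hp1, ← hq1]
        _ = _ := by ring
    rw [f5, f6, sin_add (α + 2 * β) (γ + δ)]
    ring
  rw [key] at h
  have : 0 ≤ r1 * r2 ^ 2 * r3 * r4 * sin (α + 2 * β + (γ + δ)) := by positivity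
  linarith

theorem imNeg_sound (p q xm zc za : ℕ) (h : imNeg p q xm zc za = true) (hp : 0 < p) (hx : 0 < xm)
    (hzc : 1 ≤ zc) (hza : 1 ≤ za) (hza1 : za ≤ 16384) :
    π < arctan ((q : ℝ) / p) + 2 * arctan ((zc : ℝ) / xm) +
      (arctan ((xm : ℝ) / 16384 * (za / 16384)) + arctan ((za : ℝ) / 16384 / (xm / 16384))) := by
  simp only [imNeg, decide_eq_true_eq] at h
  have h' : ((p : ℝ) * (xm * xm - zc * zc) - q * (2 * xm * zc)) * (16384 ^ 2 * za + xm * xm * za) +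
      (p * (2 * xm * zc) + q * (xm * xm - zc * zc)) * (16384 ^ 2 * xm - xm * za * za) < 0 := by
    exact_mod_cast h
  exact imNeg_real p q xm zc za (by exact_mod_cast hp) (by positivity) (by exact_mod_cast hx)
    (by exact_mod_cast hzc) (by exact_mod_cast hza) (by exact_mod_cast hza1) h'

/-- threshold: if `Im < 0` at `xm` then every admissible `x` is `> xm` -/
theorem thr_gt (p q xm zc za : ℕ) (h : imNeg p q xm zc za = true) (hp : 0 < p) (hx : 0 < xm)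
    (hxm : xm ≤ 13435) (hzc : 1 ≤ zc) (hza : 1 ≤ za) (hza1 : za ≤ 16384) (x z z₀ : ℝ) (hx0 : 0 < x)
    (hz : (za : ℝ) / 16384 ≤ z₀) (hq : (q : ℝ) / p ≤ z / x)
    (hF : th x z + 2 * arctan ((zc : ℝ) / 16384 / x) + ps x z₀ ≤ π) : (xm : ℝ) / 16384 < x := by
  by_contra hcon
  push Not at hcon
  have h1 := imNeg_sound p q xm zc za h hp hx hzc hza hza1
  have hxm' : (xm : ℝ) / 16384 < 1 := by
    rw [div_lt_one (by norm_num)]
    have : (xm : ℝ) ≤ 13435 := by exact_mod_cast hxm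
    linarith
  have hzap : (0 : ℝ) < (za : ℝ) / 16384 := by
    have : (0 : ℝ) < za := by exact_mod_cast hza
    positivity
  have hxmp : (0 : ℝ) < (xm : ℝ) / 16384 := by
    have : (0 : ℝ) < xm := by exact_mod_cast hx
    positivity
  have hza' : (za : ℝ) / 16384 ≤ 1 := by
    rw [div_le_one (by norm_num)]; exact_mod_cast hza1
  have h2 := psi_anti ((za : ℝ) / 16384) x ((xm : ℝ) / 16384) hzap hza' hx0 hcon hxm'
  have h3 : arctan ((q : ℝ) / p) ≤ th x z := arctan_mono hq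
  have h4 : arctan ((zc : ℝ) / xm) ≤ arctan ((zc : ℝ) / 16384 / x) := by
    apply arctan_mono
    rw [div_div, div_le_div_iff₀ (by exact_mod_cast hx) (by positivity)]
    have : 16384 * x ≤ xm := by
      rw [le_div_iff₀ (by norm_num)] at hcon; linarith
    exact mul_le_mul_of_nonneg_left this (by positivity)
  have h5 : arctan (x * ((za : ℝ) / 16384)) + arctan ((za : ℝ) / 16384 / x) ≤ ps x z₀ := by
    unfold ps th om
    rw [add_comm (arctan (z₀ / x))]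
    apply add_le_add
    · exact arctan_mono (mul_le_mul_of_nonneg_left hz hx0.le)
    · exact arctan_mono (div_le_div_of_nonneg_right hz hx0.le)
  linarith

theorem thrL_spec (t : ℕ → Option ℕ → Bool) (l : List (Option ℕ)) : ∀ (i : ℕ), thrL t l i = true →
    ∀ j o, l[j]? = some o → t (i + j) o = true := by
  induction l with
  | nil => intro i _ j o h; simp at h
  | cons a l ih =>
    intro i h j o hj
    simp only [thrL, Bool.and_eq_true] at h
    cases j with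
    | zero =>
      simp only [List.getElem?_cons_zero, Option.some.injEq] at hj
      subst hj
      exact h.1
    | succ j =>
      simp only [List.getElem?_cons_succ] at hj
      have := ih (i + 1) h.2 j o hj
      rw [show i + (j + 1) = i + 1 + j by ring]
      exact this

theorem cell_exists (t : ℝ) (h0 : 0 < t) (h1 : t ≤ 1) : ∃ i : ℕ, i < 32 ∧ (i : ℝ) / 32 ≤ t ∧
    t ≤ ((i : ℝ) + 1) / 32 := by
  rcases eq_or_lt_of_le h1 with h | h
  · exact ⟨31, by norm_num, by rw [h]; norm_num, by rw [h]; norm_num⟩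
  · refine ⟨⌊32 * t⌋₊, ?_, ?_, ?_⟩
    · rw [Nat.floor_lt (by positivity)]; norm_num; linarith
    · have := Nat.floor_le (show 0 ≤ 32 * t by positivity)
      rw [div_le_iff₀ (by norm_num)]; linarith
    · have := Nat.lt_floor_add_one (32 * t)
      rw [le_div_iff₀ (by norm_num)]; linarith

theorem cs2 : Stm_CS2 := by
  intro zc za t1 t2 hzc hza hza1 hthr x z z₀ hx0 hx1 hz0 hz1 hz₀ hz₀1 hF
  simp only [thrOK, Bool.and_eq_true] at hthr
  obtain ⟨⟨⟨l1, l2⟩, h1⟩, h2⟩ := hthr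
  have l1 := Nat.eq_of_beq_eq_true l1
  have l2 := Nat.eq_of_beq_eq_true l2
  rcases le_total z x with hzx | hzx
  · left
    obtain ⟨i, hi, hi0, hi1⟩ := cell_exists (z / x) (by positivity)
      (by rw [div_le_one hx0]; exact hzx)
    have hil : i < t1.length := by rw [l1]; exact hi
    obtain ⟨o, ho⟩ : ∃ o, t1[i]? = some o := ⟨t1[i], List.getElem?_eq_getElem hil⟩
    have ht := thrL_spec _ t1 0 h1 i o ho
    rw [zero_add] at ht
    cases o with
    | none =>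
      exfalso
      have := thr_gt 32 i 13435 zc za (by simpa [thr1] using ht) (by norm_num) (by norm_num) le_rfl
        hzc hza hza1 x z z₀ hx0 hz₀ (by exact_mod_cast hi0) hF
      have h13 : ((13435 : ℕ) : ℝ) / 16384 = 13435 / 16384 := by norm_num
      rw [h13] at this
      linarith
    | some xm =>
      refine ⟨i, xm, ho, hi0, hi1, ?_⟩
      simp only [thr1, Bool.or_eq_true, Bool.and_eq_true] at ht
      rcases ht with ht | ⟨hb, ht⟩
      · rw [Nat.eq_of_beq_eq_true ht]; simp; exact hx0.le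
      · rcases Nat.eq_zero_or_pos xm with h0 | h0
        · rw [h0]; simp; exact hx0.le
        · exact (thr_gt 32 i xm zc za (by simpa using ht) (by norm_num) h0
            (Nat.le_of_ble_eq_true hb) hzc hza hza1 x z z₀ hx0 hz₀ (by exact_mod_cast hi0) hF).le
  · right
    obtain ⟨i, hi, hi0, hi1⟩ := cell_exists (x / z) (by positivity)
      (by rw [div_le_one hz0]; exact hzx)
    have hil : i < t2.length := by rw [l2]; exact hi
    obtain ⟨o, ho⟩ : ∃ o, t2[i]? = some o := ⟨t2[i], List.getElem?_eq_getElem hil⟩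
    have ht := thrL_spec _ t2 0 h2 i o ho
    rw [zero_add] at ht
    have hq : ((32 : ℕ) : ℝ) / ((i + 1 : ℕ) : ℝ) ≤ z / x := by
      push_cast
      rw [div_le_div_iff₀ (by positivity) hx0]
      rw [div_le_div_iff₀ hz0 (by norm_num)] at hi1
      linarith
    cases o with
    | none =>
      exfalso
      have := thr_gt (i + 1) 32 13435 zc za (by simpa [thr2] using ht) (Nat.succ_pos _)
        (by norm_num) le_rfl hzc hza hza1 x z z₀ hx0 hz₀ hq hF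
      have h13 : ((13435 : ℕ) : ℝ) / 16384 = 13435 / 16384 := by norm_num
      rw [h13] at this
      linarith
    | some xm =>
      refine ⟨i, xm, ho, hi0, hi1, ?_⟩
      simp only [thr2, Bool.or_eq_true, Bool.and_eq_true] at ht
      rcases ht with ht | ⟨hb, ht⟩
      · rw [Nat.eq_of_beq_eq_true ht]; simp; exact hx0.le
      · rcases Nat.eq_zero_or_pos xm with h0 | h0
        · rw [h0]; simp; exact hx0.le
        · exact (thr_gt (i + 1) 32 xm zc za (by simpa using ht) (Nat.succ_pos _) h0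
            (Nat.le_of_ble_eq_true hb) hzc hza hza1 x z z₀ hx0 hz₀ hq hF).le

/-! ### CS3 -/

theorem valOK_real (U0 U1 Y0 Y1 : P2) (K cr : ℕ) (z0 z1 : ℕ) (h : valOK U0 U1 Y0 Y1 K cr z0 z1 = true) :
    14.966 ≤ π * (U0.ev ((z0 : ℝ) / 16384) + U1.ev ((z1 : ℝ) / 16384) + 4 * ((K : ℝ) / 10 ^ 6)) -
      2 * (Y0.ev ((z0 : ℝ) / 16384) + Y1.ev ((z1 : ℝ) / 16384)) + 2 * ((cr : ℝ) / 10 ^ 6) := by
  simp only [valOK, Bool.and_eq_true, decide_eq_true_eq] at h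
  obtain ⟨h1, h2⟩ := h
  have h1' : (0 : ℝ) ≤ (U0.a + U1.a + 4 * K) * 16384 + U0.b * z0 + U1.b * z1 := by exact_mod_cast h1
  have h2' : 2 * 1073741824 * (((Y0.a : ℝ) + Y1.a) * 16384 + Y0.b * z0 + Y1.b * z1) +
      14966000 * 16384 * 1073741824 ≤
    3373259426 * ((U0.a + U1.a + 4 * K) * 16384 + U0.b * z0 + U1.b * z1) +
      2 * 1073741824 * 16384 * cr := by exact_mod_cast h2
  have h3 : 3373259426 * (((U0.a : ℝ) + U1.a + 4 * K) * 16384 + U0.b * z0 + U1.b * z1) ≤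
      (1073741824 * π) * ((U0.a + U1.a + 4 * K) * 16384 + U0.b * z0 + U1.b * z1) :=
    mul_le_mul_of_nonneg_right pi_lo h1'
  have e : π * (U0.ev ((z0 : ℝ) / 16384) + U1.ev ((z1 : ℝ) / 16384) + 4 * ((K : ℝ) / 10 ^ 6)) -
      2 * (Y0.ev ((z0 : ℝ) / 16384) + Y1.ev ((z1 : ℝ) / 16384)) + 2 * ((cr : ℝ) / 10 ^ 6) - 14.966 =
      ((1073741824 * π) * ((U0.a + U1.a + 4 * K) * 16384 + U0.b * z0 + U1.b * z1) +
      2 * 1073741824 * 16384 * cr - (2 * 1073741824 * (((Y0.a : ℝ) + Y1.a) * 16384 + Y0.b * z0 +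
      Y1.b * z1) + 14966000 * 16384 * 1073741824)) / (1073741824 * 16384 * 10 ^ 6) := by
    unfold P2.ev
    field_simp
    ring
  have : 0 ≤ ((1073741824 * π) * ((U0.a + U1.a + 4 * K) * 16384 + U0.b * z0 + U1.b * z1) +
      2 * 1073741824 * 16384 * cr - (2 * 1073741824 * (((Y0.a : ℝ) + Y1.a) * 16384 + Y0.b * z0 +
      Y1.b * z1) + 14966000 * 16384 * 1073741824)) / (1073741824 * 16384 * 10 ^ 6) := by
    apply div_nonneg _ (by norm_num)
    linarith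
  linarith

/-- an affine function on an interval is `≥` its smaller endpoint value -/
theorem affine_ge (a b c u v w : ℝ) (h0 : u ≤ w) (h1 : w ≤ v) (k0 : c ≤ a + b * u)
    (k1 : c ≤ a + b * v) : c ≤ a + b * w := by
  rcases le_total 0 b with h | h
  · nlinarith
  · nlinarith

theorem cs3 : Stm_CS3 := by
  intro U0 U1 Y0 Y1 K cr z0a z0b z1a z1b h z₀ z₁ h1 h2 h3 h4
  simp only [valOK4, Bool.and_eq_true] at h
  obtain ⟨⟨⟨k1, k2⟩, k3⟩, k4⟩ := h
  have k1 := valOK_real _ _ _ _ _ _ _ _ k1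
  have k2 := valOK_real _ _ _ _ _ _ _ _ k2
  have k3 := valOK_real _ _ _ _ _ _ _ _ k3
  have k4 := valOK_real _ _ _ _ _ _ _ _ k4
  have key : ∀ w₁ : ℝ, ∀ w₀ : ℝ, π * (U0.ev w₀ + U1.ev w₁ + 4 * ((K : ℝ) / 10 ^ 6)) -
      2 * (Y0.ev w₀ + Y1.ev w₁) + 2 * ((cr : ℝ) / 10 ^ 6) =
      (π * (U0.ev 0 + U1.ev w₁ + 4 * ((K : ℝ) / 10 ^ 6)) -
      2 * (Y0.ev 0 + Y1.ev w₁) + 2 * ((cr : ℝ) / 10 ^ 6)) +
      ((π * U0.b - 2 * Y0.b) / 10 ^ 6) * w₀ := by
    intro w₁ w₀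
    unfold P2.ev
    ring
  have key' : ∀ w₀ : ℝ, ∀ w₁ : ℝ, π * (U0.ev w₀ + U1.ev w₁ + 4 * ((K : ℝ) / 10 ^ 6)) -
      2 * (Y0.ev w₀ + Y1.ev w₁) + 2 * ((cr : ℝ) / 10 ^ 6) =
      (π * (U0.ev w₀ + U1.ev 0 + 4 * ((K : ℝ) / 10 ^ 6)) -
      2 * (Y0.ev w₀ + Y1.ev 0) + 2 * ((cr : ℝ) / 10 ^ 6)) +
      ((π * U1.b - 2 * Y1.b) / 10 ^ 6) * w₁ := by
    intro w₁ w₀
    unfold P2.ev
    ring
  -- first vary z₁ at both ends of z₀
  have m1 : 14.966 ≤ π * (U0.ev ((z0a : ℝ) / 16384) + U1.ev z₁ + 4 * ((K : ℝ) / 10 ^ 6)) -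
      2 * (Y0.ev ((z0a : ℝ) / 16384) + Y1.ev z₁) + 2 * ((cr : ℝ) / 10 ^ 6) := by
    rw [key' _ z₁]
    rw [key'] at k1 k2
    exact affine_ge _ _ _ _ _ _ h3 h4 k1 k2
  have m2 : 14.966 ≤ π * (U0.ev ((z0b : ℝ) / 16384) + U1.ev z₁ + 4 * ((K : ℝ) / 10 ^ 6)) -
      2 * (Y0.ev ((z0b : ℝ) / 16384) + Y1.ev z₁) + 2 * ((cr : ℝ) / 10 ^ 6) := by
    rw [key' _ z₁]
    rw [key'] at k3 k4
    exact affine_ge _ _ _ _ _ _ h3 h4 k3 k4
  rw [key _ z₀]
  rw [key] at m1 m2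
  exact affine_ge _ _ _ _ _ _ h1 h2 m1 m2

/-! ### CS4 -/

theorem cs4 : Stm_CS4 := by
  intro z0a z1a z1b z2 h hz0 hz1 z₀ z₁ z k1 k2 k3 hz hzz hcap
  have p0 : (0 : ℝ) < (z0a : ℝ) / 16384 := by
    have : (0 : ℝ) < z0a := by exact_mod_cast hz0
    positivity
  have p1 : (0 : ℝ) < (z1a : ℝ) / 16384 := by
    have : (0 : ℝ) < z1a := by exact_mod_cast hz1
    positivity
  have p2 : (0 : ℝ) ≤ (z2 : ℝ) / 16384 := by positivity
  simp only [z2OK, Bool.or_eq_true] at h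
  by_contra hcon
  push Not at hcon
  rcases h with (h | h) | h
  · have h' : (z1b : ℝ) ≤ z2 := by exact_mod_cast Nat.le_of_ble_eq_true h
    have : (z1b : ℝ) / 16384 ≤ z2 / 16384 := by gcongr
    linarith
  · have h' : (16384 : ℝ) ^ 2 ≤ z2 ^ 2 + 2 * z0a * z2 := by
      exact_mod_cast Nat.le_of_ble_eq_true h
    have h'' : 1 ≤ ((z2 : ℝ) / 16384) ^ 2 + 2 * ((z0a : ℝ) / 16384) * (z2 / 16384) := by
      have e : ((z2 : ℝ) / 16384) ^ 2 + 2 * ((z0a : ℝ) / 16384) * (z2 / 16384) =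
        (z2 ^ 2 + 2 * z0a * z2) / 16384 ^ 2 := by ring
      rw [e, le_div_iff₀ (by norm_num)]
      linarith
    set w := (z2 : ℝ) / 16384
    set a := (z0a : ℝ) / 16384
    nlinarith [mul_le_mul k1 hzz hz.le (by linarith), mul_le_mul k1 (le_refl z) hz.le (by linarith),
      mul_le_mul hzz (le_refl z) hz.le (by linarith), mul_pos p0 hz]
  · have h' : (16384 : ℝ) ^ 2 ≤ z2 * (z0a + z1a) + z0a * z1a := by
      exact_mod_cast Nat.le_of_ble_eq_true h
    have h'' : 1 ≤ ((z2 : ℝ) / 16384) * ((z0a : ℝ) / 16384 + z1a / 16384) +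
        (z0a : ℝ) / 16384 * (z1a / 16384) := by
      have e : ((z2 : ℝ) / 16384) * ((z0a : ℝ) / 16384 + z1a / 16384) +
        (z0a : ℝ) / 16384 * (z1a / 16384) =
        (z2 * (z0a + z1a) + z0a * z1a) / 16384 ^ 2 := by ring
      rw [e, le_div_iff₀ (by norm_num)]
      linarith
    set w := (z2 : ℝ) / 16384
    set a := (z0a : ℝ) / 16384
    set b := (z1a : ℝ) / 16384
    have q1 : a * b ≤ z₀ * z₁ := mul_le_mul k1 k2 p1.le (by linarith)
    have q2 : w * (a + b) < z * (z₀ + z₁) := by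
      have : w * (a + b) < z * (a + b) := mul_lt_mul_of_pos_right hcon (by linarith)
      have : z * (a + b) ≤ z * (z₀ + z₁) := mul_le_mul_of_nonneg_left (by linarith) hz.le
      linarith
    linarith

/-! ### Rows -/

theorem E_mkRow (p1 : P4) (p2 f : P3) (s q1 : P4) (q2 : P3) (K : ℕ) (x z : ℝ) :
    E (mkRow p1 p2 f s q1 q2 K) x z = tt x + p1.ev x + p2.ev z - f.ev z * ph x z - s.ev x * ps x z
      - 4 * ((K : ℝ) / 10 ^ 6) * om x z + π / 2 * (q1.ev x + q2.ev z) := by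
  simp only [E, mkRow, P4.ev, P3.ev, tt, ph, ps, th, om]
  ring

theorem ev_smul4 (k : ℤ) (p : P4) (x : ℝ) : (p.smul k).ev x = k * p.ev x := by
  simp only [P4.smul, P4.ev]; push_cast; ring

theorem ev_smul3 (k : ℤ) (p : P3) (x : ℝ) : (p.smul k).ev x = k * p.ev x := by
  simp only [P3.smul, P3.ev]; push_cast; ring

theorem ev_add4 (p q : P4) (x : ℝ) : (p.add q).ev x = p.ev x + q.ev x := by
  simp only [P4.add, P4.ev]; push_cast; ring

theorem ev_o4 (x : ℝ) : P4.o.ev x = 0 := by simp [P4.o, P4.ev]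

theorem ev_o3 (x : ℝ) : P3.o.ev x = 0 := by simp [P3.o, P3.ev]

theorem ev_k (k : ℤ) (x : ℝ) : (P4.k k).ev x = k / 10 ^ 6 := by simp [P4.k, P4.ev]

theorem ev_to3 (p : P2) (x : ℝ) : p.to3.ev x = p.ev x := by
  simp [P2.to3, P3.ev, P2.ev]

theorem ev_to4 (p : P3) (x : ℝ) : p.to4.ev x = p.ev x := by
  simp [P3.to4, P3.ev, P4.ev]

/-- `chkRow` on a box -/
theorem row_sound (p1 : P4) (p2 f : P3) (s q1 : P4) (q2 : P3) (K xlo xhi zlo zhi : ℕ)
    (h : chkRow (mkRow p1 p2 f s q1 q2 K) xlo xhi zlo zhi 22 = true) (x z : ℝ) (hx : 0 < x) (hz : 0 < z)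
    (h1 : (xlo : ℝ) / 16384 ≤ x) (h2 : x ≤ (xhi : ℝ) / 16384) (h3 : (zlo : ℝ) / 16384 ≤ z)
    (h4 : z ≤ (zhi : ℝ) / 16384) :
    0 ≤ tt x + p1.ev x + p2.ev z - f.ev z * ph x z - s.ev x * ps x z
      - 4 * ((K : ℝ) / 10 ^ 6) * om x z + π / 2 * (q1.ev x + q2.ev z) := by
  rw [← E_mkRow]
  exact chkRow_sound _ _ _ _ _ _ h x z hx hz h1 h2 h3 h4

/-- two-variable rows with `x > 0`, `0 < z ≤ Z` -/
theorem row_xz {p1 : P4} {p2 f : P3} {s q1 : P4} {q2 : P3} {K zhi : ℕ}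
    (h : chkRow (mkRow p1 p2 f s q1 q2 K) 0 13435 0 zhi 22 = true) (x z : ℝ) (hx : 0 < x)
    (hx1 : x ≤ 13435 / 16384) (hz : 0 < z) (hz1 : z ≤ (zhi : ℝ) / 16384) :
    0 ≤ tt x + p1.ev x + p2.ev z - f.ev z * ph x z - s.ev x * ps x z
      - 4 * ((K : ℝ) / 10 ^ 6) * om x z + π / 2 * (q1.ev x + q2.ev z) :=
  row_sound p1 p2 f s q1 q2 K 0 13435 0 zhi h x z hx hz (by simpa using hx.le)
    (by norm_num; linarith) (by simpa using hz.le) hz1

/-- two-variable rows with `x > 0`, `zlo ≤ z ≤ Z` -/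
theorem row_xc {p1 : P4} {p2 f : P3} {s q1 : P4} {q2 : P3} {K zlo zhi : ℕ}
    (h : chkRow (mkRow p1 p2 f s q1 q2 K) 0 13435 zlo zhi 22 = true) (h0 : 1 ≤ zlo)
    (x z : ℝ) (hx : 0 < x)
    (hx1 : x ≤ 13435 / 16384) (hz : (zlo : ℝ) / 16384 ≤ z) (hz1 : z ≤ (zhi : ℝ) / 16384) :
    0 ≤ tt x + p1.ev x + p2.ev z - f.ev z * ph x z - s.ev x * ps x z
      - 4 * ((K : ℝ) / 10 ^ 6) * om x z + π / 2 * (q1.ev x + q2.ev z) :=
  row_sound p1 p2 f s q1 q2 K 0 13435 zlo zhi h x z hx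
    (lt_of_lt_of_le (div_pos (by exact_mod_cast h0) (by norm_num)) hz) (by simpa using hx.le)
    (by norm_num; linarith) hz hz1

/-- rows with `xlo ≤ x`, `zlo ≤ z` -/
theorem row_cc {p1 : P4} {p2 f : P3} {s q1 : P4} {q2 : P3} {K xlo xhi zlo zhi : ℕ}
    (h : chkRow (mkRow p1 p2 f s q1 q2 K) xlo xhi zlo zhi 22 = true) (hx0 : 1 ≤ xlo) (h0 : 1 ≤ zlo)
    (x z : ℝ) (hx : (xlo : ℝ) / 16384 ≤ x)
    (hx1 : x ≤ (xhi : ℝ) / 16384) (hz : (zlo : ℝ) / 16384 ≤ z) (hz1 : z ≤ (zhi : ℝ) / 16384) :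
    0 ≤ tt x + p1.ev x + p2.ev z - f.ev z * ph x z - s.ev x * ps x z
      - 4 * ((K : ℝ) / 10 ^ 6) * om x z + π / 2 * (q1.ev x + q2.ev z) :=
  row_sound p1 p2 f s q1 q2 K xlo xhi zlo zhi h x z
    (lt_of_lt_of_le (div_pos (by exact_mod_cast hx0) (by norm_num)) hx)
    (lt_of_lt_of_le (div_pos (by exact_mod_cast h0) (by norm_num)) hz) hx hx1 hz hz1

/-- rows with `xlo ≤ x`, `0 < z` -/
theorem row_cz {p1 : P4} {p2 f : P3} {s q1 : P4} {q2 : P3} {K xlo xhi zhi : ℕ}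
    (h : chkRow (mkRow p1 p2 f s q1 q2 K) xlo xhi 0 zhi 22 = true) (hx0 : 1 ≤ xlo)
    (x z : ℝ) (hx : (xlo : ℝ) / 16384 ≤ x)
    (hx1 : x ≤ (xhi : ℝ) / 16384) (hz : 0 < z) (hz1 : z ≤ (zhi : ℝ) / 16384) :
    0 ≤ tt x + p1.ev x + p2.ev z - f.ev z * ph x z - s.ev x * ps x z
      - 4 * ((K : ℝ) / 10 ^ 6) * om x z + π / 2 * (q1.ev x + q2.ev z) :=
  row_sound p1 p2 f s q1 q2 K xlo xhi 0 zhi h x z
    (lt_of_lt_of_le (div_pos (by exact_mod_cast hx0) (by norm_num)) hx)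
    hz hx hx1 (by simpa using hz.le) hz1

/-- rows with `0 < x ≤ xs`, `zlo ≤ z` -/
theorem row_sc {p1 : P4} {p2 f : P3} {s q1 : P4} {q2 : P3} {K xhi zlo zhi : ℕ}
    (h : chkRow (mkRow p1 p2 f s q1 q2 K) 0 xhi zlo zhi 22 = true) (h0 : 1 ≤ zlo)
    (x z : ℝ) (hx : 0 < x)
    (hx1 : x ≤ (xhi : ℝ) / 16384) (hz : (zlo : ℝ) / 16384 ≤ z) (hz1 : z ≤ (zhi : ℝ) / 16384) :
    0 ≤ tt x + p1.ev x + p2.ev z - f.ev z * ph x z - s.ev x * ps x z
      - 4 * ((K : ℝ) / 10 ^ 6) * om x z + π / 2 * (q1.ev x + q2.ev z) :=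
  row_sound p1 p2 f s q1 q2 K 0 xhi zlo zhi h x z hx
    (lt_of_lt_of_le (div_pos (by exact_mod_cast h0) (by norm_num)) hz) (by simpa using hx.le)
    hx1 hz hz1

/-- restricted rows -/
theorem row_res {p1 : P4} {p2 f : P3} {s q1 : P4} {q2 : P3} {K zhi zc za : ℕ}
    {t1 t2 : List (Option ℕ)}
    (h : chkRes (mkRow p1 p2 f s q1 q2 K) 0 13435 0 zhi 22 t1 t2 = true)
    (hthr : thrOK zc za t1 t2 = true) (hzc : 1 ≤ zc) (hza : 1 ≤ za) (hzhi : zhi ≤ 16384)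
    (x z z₀ : ℝ) (hx : 0 < x)
    (hx1 : x ≤ 13435 / 16384) (hz : 0 < z) (hz1 : z ≤ (zhi : ℝ) / 16384)
    (hz₀ : (za : ℝ) / 16384 ≤ z₀) (hz₀1 : z₀ < 1)
    (hF : th x z + 2 * arctan ((zc : ℝ) / 16384 / x) + ps x z₀ ≤ π) :
    0 ≤ tt x + p1.ev x + p2.ev z - f.ev z * ph x z - s.ev x * ps x z
      - 4 * ((K : ℝ) / 10 ^ 6) * om x z + π / 2 * (q1.ev x + q2.ev z) := by
  rw [← E_mkRow]
  have hzhi' : (zhi : ℝ) / 16384 ≤ 1 := by
    rw [div_le_one (by norm_num)]; exact_mod_cast hzhi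
  have hza1 : za ≤ 16384 := by
    have : (za : ℝ) / 16384 < 1 := by linarith
    rw [div_lt_one (by norm_num)] at this
    have : za < 16384 := by exact_mod_cast this
    exact this.le
  exact chkRes_sound _ _ _ _ _ _ t1 t2 h x z hx hz (by simpa using hx.le)
    (by norm_num; linarith) (by simpa using hz.le) hz1
    (cs2 zc za t1 t2 hzc hza hza1 hthr x z z₀ hx hx1 hz (by linarith) hz₀ hz₀1 hF)

theorem yOK_real (Y0 Y1 : P2) (kap z0 z1 : ℕ) (h : yOK Y0 Y1 kap z0 z1 = true) :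
    2 * ((kap : ℝ) / 10 ^ 6) ≤ Y0.ev ((z0 : ℝ) / 16384) + Y1.ev ((z1 : ℝ) / 16384) := by
  simp only [yOK, decide_eq_true_eq] at h
  have h' : 2 * (kap : ℝ) * 16384 ≤ ((Y0.a : ℝ) + Y1.a) * 16384 + Y0.b * z0 + Y1.b * z1 := by
    exact_mod_cast h
  unfold P2.ev
  have e : ((Y0.a : ℝ) + Y0.b * (z0 / 16384)) / 10 ^ 6 + (Y1.a + Y1.b * (z1 / 16384)) / 10 ^ 6 -
      2 * ((kap : ℝ) / 10 ^ 6) =
      ((((Y0.a : ℝ) + Y1.a) * 16384 + Y0.b * z0 + Y1.b * z1) - 2 * kap * 16384) /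
        (16384 * 10 ^ 6) := by
    field_simp
    ring
  have : 0 ≤ ((((Y0.a : ℝ) + Y1.a) * 16384 + Y0.b * z0 + Y1.b * z1) - 2 * kap * 16384) /
        (16384 * 10 ^ 6) := div_nonneg (by linarith) (by norm_num)
  linarith

theorem yOK_all (Y0 Y1 : P2) (kap z0a z0b z1a z1b : ℕ)
    (k1 : yOK Y0 Y1 kap z0a z1a = true) (k2 : yOK Y0 Y1 kap z0a z1b = true)
    (k3 : yOK Y0 Y1 kap z0b z1a = true) (k4 : yOK Y0 Y1 kap z0b z1b = true) (z₀ z₁ : ℝ)
    (h1 : (z0a : ℝ) / 16384 ≤ z₀) (h2 : z₀ ≤ (z0b : ℝ) / 16384) (h3 : (z1a : ℝ) / 16384 ≤ z₁)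
    (h4 : z₁ ≤ (z1b : ℝ) / 16384) :
    2 * ((kap : ℝ) / 10 ^ 6) ≤ Y0.ev z₀ + Y1.ev z₁ := by
  have k1 := yOK_real _ _ _ _ _ k1
  have k2 := yOK_real _ _ _ _ _ k2
  have k3 := yOK_real _ _ _ _ _ k3
  have k4 := yOK_real _ _ _ _ _ k4
  have key : ∀ w₁ : ℝ, ∀ w₀ : ℝ, Y0.ev w₀ + Y1.ev w₁ =
      (Y0.ev 0 + Y1.ev w₁) + (Y0.b / 10 ^ 6) * w₀ := by
    intro w₁ w₀
    unfold P2.ev
    ring
  have key' : ∀ w₀ : ℝ, ∀ w₁ : ℝ, Y0.ev w₀ + Y1.ev w₁ =
      (Y0.ev w₀ + Y1.ev 0) + (Y1.b / 10 ^ 6) * w₁ := by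
    intro w₁ w₀
    unfold P2.ev
    ring
  have m1 : 2 * ((kap : ℝ) / 10 ^ 6) ≤ Y0.ev ((z0a : ℝ) / 16384) + Y1.ev z₁ := by
    rw [key' _ z₁]
    rw [key'] at k1 k2
    exact affine_ge _ _ _ _ _ _ h3 h4 k1 k2
  have m2 : 2 * ((kap : ℝ) / 10 ^ 6) ≤ Y0.ev ((z0b : ℝ) / 16384) + Y1.ev z₁ := by
    rw [key' _ z₁]
    rw [key'] at k3 k4
    exact affine_ge _ _ _ _ _ _ h3 h4 k3 k4
  rw [key _ z₀]
  rw [key] at m1 m2
  exact affine_ge _ _ _ _ _ _ h1 h2 m1 m2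

theorem cs5 : Stm_CS5 := by
  intro c D h z₀ z₁ h1 h2 h3 h4
  simp only [CertB.ok, Bool.and_eq_true] at h
  obtain ⟨⟨⟨⟨⟨⟨⟨⟨⟨⟨⟨⟨⟨⟨⟨⟨⟨⟨⟨⟨⟨⟨⟨⟨⟨⟨⟨hz2, hxs⟩, hz0b⟩, hz1b⟩, hz0a⟩, hz1a⟩, hz2'⟩, hval⟩, hy1⟩, hy2⟩, hy3⟩, hy4⟩,
    hg⟩, ha⟩, hHC⟩, hNa⟩, hNo⟩, hAo⟩, hAa⟩, hBa⟩, hBc⟩, hCo⟩, hCa⟩, hV0⟩, hV1⟩, hVC0⟩, hVC1⟩, hk⟩ := h
  have hz0a := Nat.le_of_ble_eq_true hz0a
  have hz1a := Nat.le_of_ble_eq_true hz1a
  have e13 : ((13435 : ℕ) : ℝ) / 16384 = 13435 / 16384 := by norm_num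
  refine ⟨⟨?_, ?_, ?_, ?_, ?_, ?_, ?_, ?_, ?_, ?_, ?_⟩, ⟨?_, ?_, ?_, ?_, ?_, ?_⟩, ?_, ?_⟩
  · intro x hx hx1
    exact cs1 c.g 8 0 13435 hg x (by simpa using hx.le) (by rw [e13]; exact hx1)
  · intro z hz hz1
    rw [← ev_to4]
    exact cs1 c.a.to4 8 0 D.z2 ha z (by simpa using hz.le) hz1
  · intro x hx hx1
    rw [← ev_add4]
    exact cs1 (c.HC0.add c.HC1) 8 0 13435 hHC x (by simpa using hx.le) (by rw [e13]; exact hx1)
  · intro x z hx hx1 hz hz1
    have hh := (row_xz hNa x z hx hx1 hz hz1)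
    simp only [ev_smul4, ev_smul3, ev_add4, ev_o4, ev_o3, ev_k, ev_to3] at hh
    push_cast at hh
    try push_cast
    linarith
  · intro x z hx hx1 hz hz1
    have hh := (row_xz hNo x z hx hx1 hz hz1)
    simp only [ev_smul4, ev_smul3, ev_add4, ev_o4, ev_o3, ev_k, ev_to3] at hh
    push_cast at hh
    try push_cast
    linarith
  · intro x z hx hx1 hz hz1
    have hh := (row_xz hAo x z hx hx1 hz hz1)
    simp only [ev_smul4, ev_smul3, ev_add4, ev_o4, ev_o3, ev_k, ev_to3] at hh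
    push_cast at hh
    try push_cast
    linarith
  · intro x z hx hx1 hz hz1
    have hh := (row_xz hAa x z hx hx1 hz hz1)
    simp only [ev_smul4, ev_smul3, ev_add4, ev_o4, ev_o3, ev_k, ev_to3] at hh
    push_cast at hh
    try push_cast
    linarith
  · intro x z hx hx1 hz hz1
    have hh := (row_xz hBa x z hx hx1 hz hz1)
    simp only [ev_smul4, ev_smul3, ev_add4, ev_o4, ev_o3, ev_k, ev_to3] at hh
    push_cast at hh
    try push_cast
    linarith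
  · intro x z hx hx1 hz hz1
    have hh := (row_xz hBc x z hx hx1 hz hz1)
    simp only [ev_smul4, ev_smul3, ev_add4, ev_o4, ev_o3, ev_k, ev_to3] at hh
    push_cast at hh
    try push_cast
    linarith
  · intro x z hx hx1 hz hz1
    have hh := (row_xz hCo x z hx hx1 hz hz1)
    simp only [ev_smul4, ev_smul3, ev_add4, ev_o4, ev_o3, ev_k, ev_to3] at hh
    push_cast at hh
    try push_cast
    linarith
  · intro x z hx hx1 hz hz1
    have hh := (row_xz hCa x z hx hx1 hz hz1)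
    simp only [ev_smul4, ev_smul3, ev_add4, ev_o4, ev_o3, ev_k, ev_to3] at hh
    push_cast at hh
    try push_cast
    linarith
  · intro x hx hx1
    have hh := (row_xc hV0 hz0a x z₀ hx hx1 h1 h2)
    simp only [ev_smul4, ev_smul3, ev_add4, ev_o4, ev_o3, ev_k, ev_to3] at hh
    push_cast at hh
    try push_cast
    linarith
  · intro x hx hx1
    have hh := (row_xc hV1 hz1a x z₁ hx hx1 h3 h4)
    simp only [ev_smul4, ev_smul3, ev_add4, ev_o4, ev_o3, ev_k, ev_to3] at hh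
    push_cast at hh
    try push_cast
    linarith
  · intro x hx hx1
    have hh := (row_xc hVC0 hz0a x z₀ hx hx1 h1 h2)
    simp only [ev_smul4, ev_smul3, ev_add4, ev_o4, ev_o3, ev_k, ev_to3] at hh
    push_cast at hh
    try push_cast
    linarith
  · intro x hx hx1
    have hh := (row_xc hVC1 hz1a x z₁ hx hx1 h3 h4)
    simp only [ev_smul4, ev_smul3, ev_add4, ev_o4, ev_o3, ev_k, ev_to3] at hh
    push_cast at hh
    try push_cast
    linarith
  · intro x hx hx1 hxs1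
    simp only [Bool.or_eq_true, Bool.and_eq_true] at hk
    rcases hk with hk | ⟨hk, -⟩
    · rw [Nat.eq_of_beq_eq_true hk]
      have hh := (row_xc hVC0 hz0a x z₀ hx hx1 h1 h2)
      simp only [ev_smul4, ev_smul3, ev_add4, ev_o4, ev_o3, ev_k, ev_to3] at hh
      push_cast at hh
      try push_cast
      linarith
    · have hh := (row_sc hk hz0a x z₀ hx hxs1 h1 h2)
      simp only [ev_smul4, ev_smul3, ev_add4, ev_o4, ev_o3, ev_k, ev_to3] at hh
      push_cast at hh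
      try push_cast
      linarith
  · intro x hx hx1 hxs1
    simp only [Bool.or_eq_true, Bool.and_eq_true] at hk
    rcases hk with hk | ⟨-, hk⟩
    · rw [Nat.eq_of_beq_eq_true hk]
      have hh := (row_xc hVC1 hz1a x z₁ hx hx1 h3 h4)
      simp only [ev_smul4, ev_smul3, ev_add4, ev_o4, ev_o3, ev_k, ev_to3] at hh
      push_cast at hh
      try push_cast
      linarith
    · have hh := (row_sc hk hz1a x z₁ hx hxs1 h3 h4)
      simp only [ev_smul4, ev_smul3, ev_add4, ev_o4, ev_o3, ev_k, ev_to3] at hh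
      push_cast at hh
      try push_cast
      linarith
  · exact yOK_all _ _ _ _ _ _ _ hy1 hy2 hy3 hy4 z₀ z₁ h1 h2 h3 h4
  · exact cs3 _ _ _ _ _ _ _ _ _ _ hval z₀ z₁ h1 h2 h3 h4

theorem cs6 : Stm_CS6 := by
  intro c D h z₀ z₁ h1 h2 h2' h3 h4
  simp only [CertE.ok, Bool.and_eq_true] at h
  obtain ⟨⟨⟨⟨⟨⟨⟨⟨⟨⟨⟨⟨⟨⟨⟨⟨⟨⟨⟨⟨⟨⟨⟨⟨⟨⟨⟨hz2, hzc⟩, hxs⟩, hz0a⟩, hz1a⟩, hz2'⟩, hg⟩, ha⟩, hthr⟩,
    hNa⟩, hNc⟩, hNo⟩, hA1c⟩, hA1o⟩, hA2c⟩, hA2a⟩, hA2o⟩, hA3a⟩, hA3o⟩, hB1c⟩, hCc⟩,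
    hV0A1⟩, hV0A2⟩, hV0A3⟩, hV1B1⟩, hVC0⟩, hVC1⟩, hk⟩ := h
  have hz0a := Nat.le_of_ble_eq_true hz0a
  have hz1a := Nat.le_of_ble_eq_true hz1a
  have hz2' := Nat.le_of_ble_eq_true hz2'
  simp only [zcOK, Bool.and_eq_true] at hzc
  obtain ⟨⟨⟨⟨⟨⟨⟨⟨hzc1, hzc2⟩, hxm1⟩, hxm2⟩, -⟩, -⟩, -⟩, -⟩, -⟩ := hzc
  have hzc1 := Nat.le_of_ble_eq_true hzc1
  have hxm1 := Nat.le_of_ble_eq_true hxm1
  have e13 : ((13435 : ℕ) : ℝ) / 16384 = 13435 / 16384 := by norm_num
  refine ⟨⟨?_, ?_, ?_, ?_, ?_, ?_, ?_, ?_, ?_, ?_, ?_, ?_, ?_, ?_, ?_, ?_⟩,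
    ⟨?_, ?_, ?_, ?_, ?_, ?_, ?_, ?_⟩⟩
  · intro x hx hx1
    exact cs1 c.g 8 0 13435 hg x (by simpa using hx.le) (by rw [e13]; exact hx1)
  · intro z hz hz1
    rw [← ev_to4]
    exact cs1 c.a.to4 8 0 D.z2 ha z (by simpa using hz.le) hz1
  · positivity
  · positivity
  · intro x z hx hx1 hz hz1
    have hh := (row_xz hNa x z hx hx1 hz hz1)
    simp only [ev_smul4, ev_smul3, ev_add4, ev_o4, ev_o3, ev_k, ev_to3] at hh
    push_cast at hh
    try push_cast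
    linarith
  · intro x z hx hx1 hz hz1
    have hh := (row_xc hNc hzc1 x z hx hx1 hz hz1)
    simp only [ev_smul4, ev_smul3, ev_add4, ev_o4, ev_o3, ev_k, ev_to3] at hh
    push_cast at hh
    try push_cast
    linarith
  · intro x z hx hx1 hz hz1
    have hh := (row_xz hNo x z hx hx1 hz hz1)
    simp only [ev_smul4, ev_smul3, ev_add4, ev_o4, ev_o3, ev_k, ev_to3] at hh
    push_cast at hh
    try push_cast
    linarith
  · intro x z hx hx1 hz hz1
    have hh := (row_xc hA1c hzc1 x z hx hx1 hz hz1)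
    simp only [ev_smul4, ev_smul3, ev_add4, ev_o4, ev_o3, ev_k, ev_to3] at hh
    push_cast at hh
    try push_cast
    linarith
  · intro x z hx hx1 hz hz1 hF
    have hh := (row_res hA1o hthr hzc1 hz0a hz2' x z z₀ hx hx1 hz hz1 h1 h2' hF)
    simp only [ev_smul4, ev_smul3, ev_add4, ev_o4, ev_o3, ev_k, ev_to3] at hh
    push_cast at hh
    try push_cast
    linarith
  · intro x z hx hx1 hz hz1
    have hh := (row_xc hA2c hzc1 x z hx hx1 hz hz1)
    simp only [ev_smul4, ev_smul3, ev_add4, ev_o4, ev_o3, ev_k, ev_to3] at hh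
    push_cast at hh
    try push_cast
    linarith
  · intro x z hx hx1 hz hz1
    have hh := (row_xz hA2a x z hx hx1 hz hz1)
    simp only [ev_smul4, ev_smul3, ev_add4, ev_o4, ev_o3, ev_k, ev_to3] at hh
    push_cast at hh
    try push_cast
    linarith
  · intro x z hx hx1 hz hz1
    have hh := (row_xz hA2o x z hx hx1 hz hz1)
    simp only [ev_smul4, ev_smul3, ev_add4, ev_o4, ev_o3, ev_k, ev_to3] at hh
    push_cast at hh
    try push_cast
    linarith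
  · intro x z hx hx1 hz hz1
    have hh := (row_xz hA3a x z hx hx1 hz hz1)
    simp only [ev_smul4, ev_smul3, ev_add4, ev_o4, ev_o3, ev_k, ev_to3] at hh
    push_cast at hh
    try push_cast
    linarith
  · intro x z hx hx1 hz hz1
    have hh := (row_xz hA3o x z hx hx1 hz hz1)
    simp only [ev_smul4, ev_smul3, ev_add4, ev_o4, ev_o3, ev_k, ev_to3] at hh
    push_cast at hh
    try push_cast
    linarith
  · intro x z hx hx1 hz hz1
    have hh := (row_xc hB1c hzc1 x z hx hx1 hz hz1)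
    simp only [ev_smul4, ev_smul3, ev_add4, ev_o4, ev_o3, ev_k, ev_to3] at hh
    push_cast at hh
    try push_cast
    linarith
  · intro x z hx hx1 hz hz1
    have hh := (row_cc hCc hxm1 hzc1 x z hx (by rw [e13]; exact hx1) hz hz1)
    simp only [ev_smul4, ev_smul3, ev_add4, ev_o4, ev_o3, ev_k, ev_to3] at hh
    push_cast at hh
    try push_cast
    linarith
  · intro x hx hx1
    have hh := (row_xc hV0A1 hz0a x z₀ hx hx1 h1 h2)
    simp only [ev_smul4, ev_smul3, ev_add4, ev_o4, ev_o3, ev_k, ev_to3] at hh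
    push_cast at hh
    try push_cast
    linarith
  · intro x hx hx1
    have hh := (row_xc hV0A2 hz0a x z₀ hx hx1 h1 h2)
    simp only [ev_smul4, ev_smul3, ev_add4, ev_o4, ev_o3, ev_k, ev_to3] at hh
    push_cast at hh
    try push_cast
    linarith
  · intro x hx hx1
    have hh := (row_xc hV0A3 hz0a x z₀ hx hx1 h1 h2)
    simp only [ev_smul4, ev_smul3, ev_add4, ev_o4, ev_o3, ev_k, ev_to3] at hh
    push_cast at hh
    try push_cast
    linarith
  · intro x hx hx1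
    have hh := (row_xc hV1B1 hz1a x z₁ hx hx1 h3 h4)
    simp only [ev_smul4, ev_smul3, ev_add4, ev_o4, ev_o3, ev_k, ev_to3] at hh
    push_cast at hh
    try push_cast
    linarith
  · intro x hx hx1
    have hh := (row_cc hVC0 hxm1 hz0a x z₀ hx (by rw [e13]; exact hx1) h1 h2)
    simp only [ev_smul4, ev_smul3, ev_add4, ev_o4, ev_o3, ev_k, ev_to3] at hh
    push_cast at hh
    try push_cast
    linarith
  · intro x hx hx1
    have hh := (row_cc hVC1 hxm1 hz1a x z₁ hx (by rw [e13]; exact hx1) h3 h4)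
    simp only [ev_smul4, ev_smul3, ev_add4, ev_o4, ev_o3, ev_k, ev_to3] at hh
    push_cast at hh
    try push_cast
    linarith
  · intro x hx hx1 hxs1
    simp only [Bool.or_eq_true, Bool.and_eq_true] at hk
    rcases hk with hk | ⟨hk, -⟩
    · rw [Nat.eq_of_beq_eq_true hk]
      have hh := (row_cc hVC0 hxm1 hz0a x z₀ hx (by rw [e13]; exact hx1) h1 h2)
      simp only [ev_smul4, ev_smul3, ev_add4, ev_o4, ev_o3, ev_k, ev_to3] at hh
      push_cast at hh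
      try push_cast
      linarith
    · have hh := (row_cc hk hxm1 hz0a x z₀ hx hxs1 h1 h2)
      simp only [ev_smul4, ev_smul3, ev_add4, ev_o4, ev_o3, ev_k, ev_to3] at hh
      push_cast at hh
      try push_cast
      linarith
  · intro x hx hx1 hxs1
    simp only [Bool.or_eq_true, Bool.and_eq_true] at hk
    rcases hk with hk | ⟨-, hk⟩
    · rw [Nat.eq_of_beq_eq_true hk]
      have hh := (row_cc hVC1 hxm1 hz1a x z₁ hx (by rw [e13]; exact hx1) h3 h4)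
      simp only [ev_smul4, ev_smul3, ev_add4, ev_o4, ev_o3, ev_k, ev_to3] at hh
      push_cast at hh
      try push_cast
      linarith
    · have hh := (row_cc hk hxm1 hz1a x z₁ hx hxs1 h3 h4)
      simp only [ev_smul4, ev_smul3, ev_add4, ev_o4, ev_o3, ev_k, ev_to3] at hh
      push_cast at hh
      try push_cast
      linarith

theorem cs7 : Stm_CS7 := by
  intro c D h hN z₀ z₁ h1 h2 h3 h4 h4'
  simp only [CertE.ok, Bool.and_eq_true] at h
  obtain ⟨⟨⟨⟨⟨⟨⟨⟨⟨⟨⟨⟨⟨⟨⟨⟨⟨⟨⟨⟨⟨⟨⟨⟨⟨⟨⟨-, hzc⟩, -⟩, hz0a⟩, hz1a⟩, hz2'⟩, -⟩, -⟩, -⟩,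
    -⟩, -⟩, -⟩, -⟩, -⟩, -⟩, -⟩, -⟩, -⟩, -⟩, -⟩, -⟩,
    -⟩, -⟩, -⟩, -⟩, -⟩, -⟩, -⟩ := h
  have hz0a := Nat.le_of_ble_eq_true hz0a
  have hz1a := Nat.le_of_ble_eq_true hz1a
  have hz2' := Nat.le_of_ble_eq_true hz2'
  simp only [zcOK, Bool.and_eq_true] at hzc
  obtain ⟨⟨⟨⟨⟨⟨⟨⟨hzc1, hzc2⟩, hxm1⟩, hxm2⟩, -⟩, -⟩, -⟩, -⟩, -⟩ := hzc
  have hzc1 := Nat.le_of_ble_eq_true hzc1
  have hxm1 := Nat.le_of_ble_eq_true hxm1
  have e13 : ((13435 : ℕ) : ℝ) / 16384 = 13435 / 16384 := by norm_num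
  simp only [CertE.okN, Bool.and_eq_true] at hN
  obtain ⟨⟨⟨⟨⟨⟨⟨⟨⟨⟨⟨⟨⟨hKZ, hthr⟩, hB1o⟩, hB2c⟩, hB2b⟩, hB2o⟩, hCxa⟩, hCxb⟩, hV1B2⟩, hV1B3⟩,
    hVX0⟩, hVX1⟩, hk⟩, hval⟩ := hN
  refine ⟨⟨?_, ?_, ?_, ?_, ?_, ?_, ?_, ?_, ?_, ?_, ?_, ?_, ?_, ?_⟩, ?_⟩
  · positivity
  · have : 2 * (c.K : ℝ) * D.z2 ≤ 10 ^ 6 * 16384 := by
      exact_mod_cast Nat.le_of_ble_eq_true hKZ
    have e : 2 * ((c.K : ℝ) / 10 ^ 6) * ((D.z2 : ℝ) / 16384) =
        2 * (c.K : ℝ) * D.z2 / (10 ^ 6 * 16384) := by ring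
    rw [e, div_le_one (by norm_num)]
    exact this
  · intro x z hx hx1 hz hz1 hF
    have hh := (row_res hB1o hthr hzc1 hz1a hz2' x z z₁ hx hx1 hz hz1 h3 h4' hF)
    simp only [ev_smul4, ev_smul3, ev_add4, ev_o4, ev_o3, ev_k, ev_to3] at hh
    push_cast at hh
    try push_cast
    linarith
  · intro x z hx hx1 hz hz1
    have hh := (row_xc hB2c hzc1 x z hx hx1 hz hz1)
    simp only [ev_smul4, ev_smul3, ev_add4, ev_o4, ev_o3, ev_k, ev_to3] at hh
    push_cast at hh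
    try push_cast
    linarith
  · intro x z hx hx1 hz hz1
    have hh := (row_xz hB2b x z hx hx1 hz hz1)
    simp only [ev_smul4, ev_smul3, ev_add4, ev_o4, ev_o3, ev_k, ev_to3] at hh
    push_cast at hh
    try push_cast
    linarith
  · intro x z hx hx1 hz hz1
    have hh := (row_xz hB2o x z hx hx1 hz hz1)
    simp only [ev_smul4, ev_smul3, ev_add4, ev_o4, ev_o3, ev_k, ev_to3] at hh
    push_cast at hh
    try push_cast
    linarith
  · intro x z hx hx1 hz hz1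
    have hh := (row_cz hCxa hxm1 x z hx (by rw [e13]; exact hx1) hz hz1)
    simp only [ev_smul4, ev_smul3, ev_add4, ev_o4, ev_o3, ev_k, ev_to3] at hh
    push_cast at hh
    try push_cast
    linarith
  · intro x z hx hx1 hz hz1
    have hh := (row_cz hCxb hxm1 x z hx (by rw [e13]; exact hx1) hz hz1)
    simp only [ev_smul4, ev_smul3, ev_add4, ev_o4, ev_o3, ev_k, ev_to3] at hh
    push_cast at hh
    try push_cast
    linarith
  · intro x hx hx1
    have hh := (row_xc hV1B2 hz1a x z₁ hx hx1 h3 h4)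
    simp only [ev_smul4, ev_smul3, ev_add4, ev_o4, ev_o3, ev_k, ev_to3] at hh
    push_cast at hh
    try push_cast
    linarith
  · intro x hx hx1
    have hh := (row_xc hV1B3 hz1a x z₁ hx hx1 h3 h4)
    simp only [ev_smul4, ev_smul3, ev_add4, ev_o4, ev_o3, ev_k, ev_to3] at hh
    push_cast at hh
    try push_cast
    linarith
  · intro x hx hx1
    have hh := (row_cc hVX0 hxm1 hz0a x z₀ hx (by rw [e13]; exact hx1) h1 h2)
    simp only [ev_smul4, ev_smul3, ev_add4, ev_o4, ev_o3, ev_k, ev_to3] at hh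
    push_cast at hh
    try push_cast
    linarith
  · intro x hx hx1
    have hh := (row_cc hVX1 hxm1 hz1a x z₁ hx (by rw [e13]; exact hx1) h3 h4)
    simp only [ev_smul4, ev_smul3, ev_add4, ev_o4, ev_o3, ev_k, ev_to3] at hh
    push_cast at hh
    try push_cast
    linarith
  · intro x hx hx1 hxs1
    simp only [Bool.or_eq_true, Bool.and_eq_true] at hk
    rcases hk with hk | ⟨hk, -⟩
    · rw [Nat.eq_of_beq_eq_true hk]
      have hh := (row_cc hVX0 hxm1 hz0a x z₀ hx (by rw [e13]; exact hx1) h1 h2)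
      simp only [ev_smul4, ev_smul3, ev_add4, ev_o4, ev_o3, ev_k, ev_to3] at hh
      push_cast at hh
      try push_cast
      linarith
    · have hh := (row_cc hk hxm1 hz0a x z₀ hx hxs1 h1 h2)
      simp only [ev_smul4, ev_smul3, ev_add4, ev_o4, ev_o3, ev_k, ev_to3] at hh
      push_cast at hh
      try push_cast
      linarith
  · intro x hx hx1 hxs1
    simp only [Bool.or_eq_true, Bool.and_eq_true] at hk
    rcases hk with hk | ⟨-, hk⟩
    · rw [Nat.eq_of_beq_eq_true hk]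
      have hh := (row_cc hVX1 hxm1 hz1a x z₁ hx (by rw [e13]; exact hx1) h3 h4)
      simp only [ev_smul4, ev_smul3, ev_add4, ev_o4, ev_o3, ev_k, ev_to3] at hh
      push_cast at hh
      try push_cast
      linarith
    · have hh := (row_cc hk hxm1 hz1a x z₁ hx hxs1 h3 h4)
      simp only [ev_smul4, ev_smul3, ev_add4, ev_o4, ev_o3, ev_k, ev_to3] at hh
      push_cast at hh
      try push_cast
      linarith
  · have := cs3 _ _ _ _ _ _ _ _ _ _ hval z₀ z₁ h1 h2 h3 h4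
    push_cast at this
    linarith

end Pool.Agent.Lib.MP_af06f6_co
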