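import Mathlib
import Pool.Agent.Lib.MP_af06f6_co.D.Cert

/-! # MP_af06f6_co: soundness of the bound `zc` -/

namespace Pool.Agent.Lib.MP_af06f6_co

/-- cot of the double angle is decreasing -/
private lemma cot_anti {a b : ℝ} (ha : 0 < a) (hab : a ≤ b) :
    (1 - b ^ 2) / (2 * b) ≤ (1 - a ^ 2) / (2 * a) := by
  have hb : 0 < b := lt_of_lt_of_le ha hab
  rw [div_le_div_iff₀ (by positivity) (by positivity)]
  nlinarith [mul_nonneg (sub_nonneg.2 hab) (mul_pos ha hb).le]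

private lemma cot_nonneg' {a : ℝ} (ha : 0 < a) (h1 : a ≤ 1) : 0 ≤ (1 - a ^ 2) / (2 * a) :=
  div_nonneg (by nlinarith) (by positivity)

private lemma cot_pos' {a : ℝ} (ha : 0 < a) (h1 : a < 1) : 0 < (1 - a ^ 2) / (2 * a) :=
  div_pos (by nlinarith) (by positivity)

private lemma cot_lt' {a b : ℝ} (ha : 0 < a) (hab : a < b) : (1 - b ^ 2) / (2 * b) < (1 - a ^ 2) / (2 * a) := by
  have hb : 0 < b := lt_trans ha hab
  rw [div_lt_div_iff₀ (by positivity) (by positivity)]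
  nlinarith [mul_pos (sub_pos.2 hab) (mul_pos ha hb)]

private lemma cs8_alg {A B C X : ℝ} (hA : 0 < A) (hB : 0 < B) (hC : 0 < C) (hX : 0 < X) :
    (1 - A ^ 2) / (2 * A) * ((1 - B ^ 2) / (2 * B) + (1 - C ^ 2) / (2 * C)) +
      (1 - B ^ 2) / (2 * B) * ((1 - C ^ 2) / (2 * C)) =
    ((1 - A ^ 2) * ((1 - B ^ 2) * C + (1 - C ^ 2) * B) * X ^ 2 +
        (1 - B ^ 2) * (1 - C ^ 2) * A * X ^ 2) / (4 * A * B * C * X ^ 2) := by
  field_simp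
  ring

private lemma cs8_cmp {A B C X R : ℝ} (hA : 0 < A) (hB : 0 < B) (hC : 0 < C) (hX : 0 < X)
    (h : (1 + X ^ 2) ^ 2 * A * B * C ≤ R) :
    (1 + X ^ 2) ^ 2 / (4 * X ^ 2) ≤ R / (4 * A * B * C * X ^ 2) := by
  have e : (1 + X ^ 2) ^ 2 / (4 * X ^ 2) = ((1 + X ^ 2) ^ 2 * A * B * C) / (4 * A * B * C * X ^ 2) := by
    field_simp
  rw [e]
  exact div_le_div_of_nonneg_right h (by positivity)

theorem cs8 : Stm_CS8 := by
  intro z0b z1b zc xm hz z₀ z₁ z h0 h0' h1 h1' hb0 hb1 hzp hz1 key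
  unfold zcOK at hz
  simp only [Bool.and_eq_true, Nat.ble_eq] at hz
  obtain ⟨⟨⟨⟨⟨⟨⟨⟨c1, c2⟩, m1⟩, m2⟩, a2⟩, b2⟩, a1⟩, b1⟩, hmain⟩ := hz
  by_contra hcon
  push Not at hcon
  have q1 : (1 : ℝ) ≤ (zc : ℝ) := by exact_mod_cast c1
  have q2 : (zc : ℝ) ≤ 16384 := by exact_mod_cast c2
  have q3 : (1 : ℝ) ≤ (xm : ℝ) := by exact_mod_cast m1
  have q5 : (z0b : ℝ) ≤ 16384 := by exact_mod_cast a2
  have q6 : (z1b : ℝ) ≤ 16384 := by exact_mod_cast b2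
  have q7 : (1 : ℝ) ≤ (z0b : ℝ) := by exact_mod_cast a1
  have q8 : (1 : ℝ) ≤ (z1b : ℝ) := by exact_mod_cast b1
  set S : ℝ := 16384 with hS
  set A : ℝ := (zc : ℝ) / S with hA
  set B : ℝ := (z0b : ℝ) / S with hB
  set C : ℝ := (z1b : ℝ) / S with hC
  set X : ℝ := (xm : ℝ) / S with hX
  have Sp : (0 : ℝ) < S := by rw [hS]; norm_num
  have Ap : 0 < A := by rw [hA]; positivity
  have Bp : 0 < B := by rw [hB]; positivity
  have Cp : 0 < C := by rw [hC]; positivity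
  have Xp : 0 < X := by rw [hX]; positivity
  have B1 : B ≤ 1 := by rw [hB, div_le_one Sp]; exact q5
  have C1 : C ≤ 1 := by rw [hC, div_le_one Sp]; exact q6
  have A1 : A ≤ 1 := by rw [hA, div_le_one Sp]; exact q2
  -- the Boolean inequality in real form
  have hm : (1 + X ^ 2) ^ 2 * A * B * C ≤
      (1 - A ^ 2) * ((1 - B ^ 2) * C + (1 - C ^ 2) * B) * X ^ 2 + (1 - B ^ 2) * (1 - C ^ 2) * A * X ^ 2 := by
    have e1 : zc ^ 2 ≤ 16384 ^ 2 := Nat.pow_le_pow_left c2 2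
    have e2 : z0b ^ 2 ≤ 16384 ^ 2 := Nat.pow_le_pow_left a2 2
    have e3 : z1b ^ 2 ≤ 16384 ^ 2 := Nat.pow_le_pow_left b2 2
    have hR : (((16384 ^ 2 + xm ^ 2) ^ 2 * zc * z0b * z1b : ℕ) : ℝ) ≤
        (((16384 ^ 2 - zc ^ 2) * ((16384 ^ 2 - z0b ^ 2) * z1b + (16384 ^ 2 - z1b ^ 2) * z0b) * xm ^ 2 +
      (16384 ^ 2 - z0b ^ 2) * (16384 ^ 2 - z1b ^ 2) * zc * xm ^ 2 : ℕ) : ℝ) := by
      exact_mod_cast hmain
    simp only [Nat.cast_add, Nat.cast_mul, Nat.cast_pow, Nat.cast_sub e1, Nat.cast_sub e2, Nat.cast_sub e3,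
      Nat.cast_ofNat] at hR
    have z1' : (zc : ℝ) = S * A := by rw [hA]; field_simp
    have z2' : (z0b : ℝ) = S * B := by rw [hB]; field_simp
    have z3' : (z1b : ℝ) = S * C := by rw [hC]; field_simp
    have z4' : (xm : ℝ) = S * X := by rw [hX]; field_simp
    rw [z1', z2', z3', z4', ← hS] at hR
    have hS7 : (0 : ℝ) < S ^ 7 := by positivity
    have e4 : (S ^ 2 + (S * X) ^ 2) ^ 2 * (S * A) * (S * B) * (S * C) =
        S ^ 7 * ((1 + X ^ 2) ^ 2 * A * B * C) := by ring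
    have e5 : (S ^ 2 - (S * A) ^ 2) * ((S ^ 2 - (S * B) ^ 2) * (S * C) + (S ^ 2 - (S * C) ^ 2) * (S * B)) *
        (S * X) ^ 2 + (S ^ 2 - (S * B) ^ 2) * (S ^ 2 - (S * C) ^ 2) * (S * A) * (S * X) ^ 2 =
        S ^ 7 * ((1 - A ^ 2) * ((1 - B ^ 2) * C + (1 - C ^ 2) * B) * X ^ 2 +
          (1 - B ^ 2) * (1 - C ^ 2) * A * X ^ 2) := by ring
    rw [e4, e5] at hR
    exact le_of_mul_le_mul_left hR hS7
  -- monotonicity
  have g0 : (1 - B ^ 2) / (2 * B) ≤ (1 - z₀ ^ 2) / (2 * z₀) := cot_anti h0 hb0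
  have g1 : (1 - C ^ 2) / (2 * C) ≤ (1 - z₁ ^ 2) / (2 * z₁) := cot_anti h1 hb1
  set c := (1 - z ^ 2) / (2 * z) with hc
  set c₀ := (1 - z₀ ^ 2) / (2 * z₀) with hc0
  set c₁ := (1 - z₁ ^ 2) / (2 * z₁) with hc1
  set k₀ := (1 - B ^ 2) / (2 * B) with hk0
  set k₁ := (1 - C ^ 2) / (2 * C) with hk1
  set k := (1 - A ^ 2) / (2 * A) with hk
  have k0n : 0 ≤ k₀ := cot_nonneg' Bp B1
  have k1n : 0 ≤ k₁ := cot_nonneg' Cp C1
  have cp : 0 < c := cot_pos' hzp hz1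
  have hck : k < c := cot_lt' hzp hcon
  have s1 : c * (k₀ + k₁) + k₀ * k₁ ≤ (1 + X ^ 2) ^ 2 / (4 * X ^ 2) := by
    have t1 : k₀ * k₁ ≤ c₀ * c₁ := mul_le_mul g0 g1 k1n (le_trans k0n g0)
    have t2 : c * (k₀ + k₁) ≤ c * (c₀ + c₁) := mul_le_mul_of_nonneg_left (by linarith) cp.le
    linarith
  have s2 : (1 + X ^ 2) ^ 2 / (4 * X ^ 2) ≤ k * (k₀ + k₁) + k₀ * k₁ := by
    rw [hk, hk0, hk1, cs8_alg Ap Bp Cp Xp]
    exact cs8_cmp Ap Bp Cp Xp hm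
  have s3 : k₀ + k₁ ≤ 0 := by
    by_contra hpos
    push Not at hpos
    have := mul_lt_mul_of_pos_right hck hpos
    linarith
  have e0 : k₀ = 0 := by linarith
  have e1 : k₁ = 0 := by linarith
  rw [e0, e1] at s2
  have : 0 < (1 + X ^ 2) ^ 2 / (4 * X ^ 2) := by positivity
  linarith

end Pool.Agent.Lib.MP_af06f6_co
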