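import Mathlib
import Pool.Agent.Lib.MP_af06f6_co.D.Defs

/-!
# MP_af06f6_co, lower bound: discharging part, statements (proofs in the docstrings).

Conventions in the docstrings: `t = tt x`, `φ = ph`, `ψ = ps`, `ω = om`; `f ~ g` = adjacent (`AdjI`).
For a vertex `v` of `f`, the two faces of `Cfg.two` are called the `f`-neighbours at `v`.
Basic facts used everywhere: (F1) if `f ~ g` and `v` is on both, then `g` is an `f`-neighbour at `v` (that is the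
definition in `Cfg.two`); (F2) two adjacent faces have exactly two common vertices (`AdjI` + `common`).
-/

open Set

namespace Pool.Agent.Lib.MP_af06f6_co

/-- E1. A midscribed dual pair gives a configuration. Proof: `face, vert, tot, cap` are C2, C3, C4, C5;
`deg` A4, `common` A3, `two` A5 (existence and `only`; `Adj F V f g` and `⟪v,g⟫ = 1` gives an `E4 V F v w f g`
with `w` the other common vertex, as there are at most two), `conn` A7. `0 < hx v < 1` since `1 < ‖v‖`.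
`link`: let `S` be the set of the `w ∈ V` adjacent to `v` (`Adj V F v w`) such that the two common faces
are in `T = {f,g,h}`. A face of `T` has its two `v`-edges (A5) shared with the other two members of `T`
(these are adjacent to it and contain `v`), so both its neighbours `w` are in `S`. If some `w` adjacent to
`v` is not in `S`, A7 for the swapped pair gives a face `k` at `v` with neighbours `w' ∈ S`, `w'' ∉ S`; `w' ∈ S`
gives `k ∈ T`, hence `w'' ∈ S`, contradiction. So all `w` adjacent to `v` are in `S`, so every face at `v` (it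
has an edge at `v` by A5) is in `T`: degree 3. -/
def Stm_E1 : Prop := ∀ V F : Finset E3, Mid V F →
  Cfg V F (fun v f => inner ℝ v f = (1 : ℝ)) hx hx

/-- E2. `tt (hx v) = tl v` for `‖v‖ > 1`, hence `Len = ∑ deg · tl ≤ totalLength`. -/
def Stm_E2 : Prop := ∀ V F : Finset E3, Mid V F →
  Len V F (fun v f => inner ℝ v f = (1 : ℝ)) hx = ∑ v ∈ V, ((star F v).card : ℝ) * tl v

section
variable {α β : Type}

/-- T1. Proof: some vertex with `x ≥ X := 13435/16384` alone contributes `≥ 3 tt(X) > 15`. -/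
def Stm_T1 : Prop := ∀ (α β : Type) (V : Finset α) (F : Finset β) (I : α → β → Prop) (x : α → ℝ) (z : β → ℝ),
  Cfg V F I x z → (∃ v ∈ V, (13435 : ℝ) / 16384 ≤ x v) → 14.966 ≤ Len V F I x

/-- T2. If `z f ≤ 6800/16384` for all faces: `tt x ≥ 2x ≥ 2ω/z ≥ (2·16384/6800) ω` for every flag,
`∑ω = π`, so `L ≥ 2π·16384/6800 > 15`. (`ω = arctan(xz) ≤ xz`.) -/
def Stm_T2 : Prop := ∀ (α β : Type) (V : Finset α) (F : Finset β) (I : α → β → Prop) (x : α → ℝ) (z : β → ℝ),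
  Cfg V F I x z → (∀ f ∈ F, z f ≤ (6800 : ℝ) / 16384) → 14.966 ≤ Len V F I x

/-- T3. If all faces but one have `z ≤ z̄ := 3438/16384`. Proof: flags `(v,f)`, `f ≠ f₀`: `tt x ≥ 2ω/z̄`;
`∑_{f≠f₀} ω = π - ∑_{v∈f₀} ω(v,f₀)`, and `∑_{v∈f₀} φ = π`, `φ = (π/2 - θ) + ω` with `π/2 - θ = arctan(x/z₀) ≥
arctan(x z₀) = ω` as `z₀ < 1`. So `∑_{v ∈ f₀} ω ≤ π/2`, `L ≥ (2/z̄)(π/2) = π/z̄ > 14.971`. -/
def Stm_T3 : Prop := ∀ (α β : Type) (V : Finset α) (F : Finset β) (I : α → β → Prop) (x : α → ℝ) (z : β → ℝ),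
  Cfg V F I x z → ∀ f₀ ∈ F, (∀ f ∈ F, f ≠ f₀ → z f ≤ (3438 : ℝ) / 16384) → 14.966 ≤ Len V F I x

/-- DB (basic discharging). `f₀ ≠ f₁` faces; bonus `κ` needs: a common vertex with `x ≤ xs`, or at most
one common vertex and `Y₀ + Y₁ ≥ 2κ`.

Proof. Call class `a'` the faces `g ≠ f₁` with `g ~ f₀`. CLAIM: for every vertex `v` with faces
`S = fat F I v`: `deg(v) t_v ≥ 4K ∑_S ω + [v∈f₀] u₀ φ(v,f₀) + [v∈f₁] u₁ φ(v,f₁) - [v∈f₀∩f₁](Y₀ + Y₁ - bonus)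
+ ∑_{g ∈ S, g ∈ a'} a(z_g)(φ(v,g) - [v ∈ f₀] π/2)`, bonus `= 2κ` if `x_v ≤ xs` (or `0` if we want).
 * `v ∉ f₀, f₁`: rows Na (for `g ∈ a'`), No (other): sum, `∑ψ = π` (`vert`), `3πg - π g deg ≤ 0` as `deg ≥ 3`.
 * `v ∈ f₀`, `v ∉ f₁`: V0 for `f₀`, Aa for the two `f₀`-neighbours (they are in `a'`; every `g ∈ S` in `a'` is an
   `f₀`-neighbour), Ao for the rest. The `H` cancel: `-2H + H + H`; `G`: `-G(π - ψ₀) + G ∑_{g≠f₀} ψ = 0`.
 * `v ∈ f₁`, `v ∉ f₀`: V1 for `f₁`, Bc for the two `f₁`-neighbours, Ba for the rest (both rows contain `a φ ≥ 0`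
   also for faces not in `a'`; drop it).
 * `v ∈ f₀ ∩ f₁`: VC0, VC1 (or the `k` versions, if `x_v ≤ xs` and the bonus is wanted), Ca for the faces of
   `S` in `a'`, Co for the rest. The number `m` of faces of `S` in `a'` is 1 if `f₁ ~ f₀`, else 2 (the
   `f₀`-neighbours at `v` other than `f₁`), so `m(HC0+HC1) - HC0 - HC1 ≥ 0`; `GC`: `-GC(π - ψ₀ - ψ₁) + GC(π - ψ₀ - ψ₁) = 0`.
Sum over all `v`: `∑ω = π` (tot), `∑_{v∈f₀} φ = π`, `∑_{v∈f₁} φ = π`, and for every `g ∈ a'` the total of its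
`a(z_g)` terms is `a(z_g)(π - 2·π/2) = 0` (exactly two common vertices with `f₀`). So
`L ≥ π(u₀+u₁+4K) - n(Y₀+Y₁) + bonus`, `n` = number of common vertices `≤ 2`.
Case 1 (a common vertex with `x ≤ xs`, take the bonus at this one only): if `n = 2` done; if `n ≤ 1` use
`Y₀+Y₁ ≥ 0`. Case 2 (`n ≤ 1`, no bonus): `-n(Y₀+Y₁) ≥ -(Y₀+Y₁) ≥ -2(Y₀+Y₁) + 2κ`. Case 3: `κ = 0`. -/
def Stm_DB : Prop := ∀ (α β : Type) (V : Finset α) (F : Finset β) (I : α → β → Prop) (x : α → ℝ) (z : β → ℝ),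
  Cfg V F I x z → ∀ (X Z K u₀ u₁ Y₀ Y₁ κ xs : ℝ) (g a G H GB HB HC0 HC1 GC : ℝ → ℝ) (f₀ f₁ : β),
  f₀ ∈ F → f₁ ∈ F → f₀ ≠ f₁ → (∀ v ∈ V, x v ≤ X) → (∀ h ∈ F, h ≠ f₀ → h ≠ f₁ → z h ≤ Z) →
  RowsB X Z K g a G H GB HB HC0 HC1 GC →
  RowsBV X K (z f₀) (z f₁) u₀ u₁ Y₀ Y₁ κ xs G H GB HB HC0 HC1 GC → 0 ≤ κ → 2 * κ ≤ Y₀ + Y₁ →
  (κ = 0 ∨ (∃ v ∈ V, I v f₀ ∧ I v f₁ ∧ x v ≤ xs) ∨ ¬ AdjI V I f₀ f₁) →
  Real.pi * (u₀ + u₁ + 4 * K) - 2 * (Y₀ + Y₁) + 2 * κ ≤ Len V F I x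

/-- CNT (counting credits). `f ~ f'`. Call `a` the faces `g ≠ f'` with `g ~ f`, not `g ~ f'`, and `c` those with
`g ~ f`, `g ~ f'`. If `ExactAt f f'` fails, then either at least two vertices `v` of `f` have one
`f`-neighbour of class `a` and the other not of class `a` (i.e. `f'` or class `c`), or some vertex `v` of `f`,
not on `f'`, has both `f`-neighbours of class `c` and degree at least 4.
Proof. If there is no face of class `a`: then all `f`-neighbours other than `f'` are of class `c`, and failure of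
`ExactAt` gives a vertex of `f` not on `f'` with degree `≠ 3`. Otherwise `conn` with `S` = class `a` (nonempty; `f'`
is adjacent to `f` and not in `S`) gives one such vertex; the number of such vertices is even:
`∑_{g ∈ S} #{v : v on f and g} = 2|S|` counts the vertices with both `f`-neighbours in `S` twice and the
vertices in question once. -/
def Stm_CNT : Prop := ∀ (α β : Type) (V : Finset α) (F : Finset β) (I : α → β → Prop) (x : α → ℝ) (z : β → ℝ),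
  Cfg V F I x z → ∀ f ∈ F, ∀ f' ∈ F, AdjI V I f f' → ¬ ExactAt V F I f f' →
  (∃ v ∈ V, ∃ w ∈ V, v ≠ w ∧ I v f ∧ I w f ∧
    (∃ g ∈ F, g ≠ f' ∧ AdjI V I f g ∧ I v g ∧ ¬ AdjI V I f' g) ∧
    (∃ g ∈ F, AdjI V I f g ∧ I v g ∧ (g = f' ∨ AdjI V I f' g)) ∧
    (∃ g ∈ F, g ≠ f' ∧ AdjI V I f g ∧ I w g ∧ ¬ AdjI V I f' g) ∧
    (∃ g ∈ F, AdjI V I f g ∧ I w g ∧ (g = f' ∨ AdjI V I f' g))) ∨
  (∃ v ∈ V, I v f ∧ ¬ I v f' ∧ (∀ g ∈ F, AdjI V I f g → I v g → AdjI V I f' g) ∧ 4 ≤ (fat F I v).card)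

/-- DN (discharging, neither side exact). `f₀ ~ f₁`, both common vertices have `x ≥ xm`, one has `x ≤ xs` (or
`κ = 0`).

Proof. Classes of faces `g ≠ f₀, f₁`: `a`: `~f₀`, not `~f₁`; `b`: `~f₁`, not `~f₀`; `c`: both; `o`: neither.
Types of vertices. `v ∉ f₀,f₁`: N. `v ∈ f₀` only: its two `f₀`-neighbours are `c c` (A1), `c a` (A2), `a a` (A3); its
other faces `≠ f₀` are of class `b` or `o` (F1). `v ∈ f₁` only: `f₁`-neighbours `c c` (B1), `c b` (B2), `b b` (B3); other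
faces `≠ f₁` of class `a` or `o`. `v ∈ f₀ ∩ f₁` (exactly two such vertices, since `f₀ ~ f₁`): let `g` be the
`f₀`-neighbour `≠ f₁` and `g'` the `f₁`-neighbour `≠ f₀`. If `g = g'` then `f₀, f₁, g` are pairwise adjacent, so
the degree is 3 (`link`), `g` has class `c`: type Cc. If `g ≠ g'`: `g` is not `~ f₁` (otherwise it would be an
`f₁`-neighbour at `v` other than `f₀`, so `= g'`), so class `a`; `g'` class `b`; all other faces at `v` (not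
`f₀, f₁`) have class `o`: type Cx.
Sum of the rows over the faces of `v` (all `ψ` terms cancel by `∑ψ = π`, all `H` terms cancel):
 N: Na, Nc, No; `deg t ≥ 4K∑ω + ∑_{a} aφ + ∑_{c} cφ`.
 A1: V0A1, A1c twice, A1o for each of the `deg - 3` others (restriction of A1o: `∑ψ = π` at `v`, with
   `ψ ≥ θ`, `ψ(x,z_g) ≥ arctan(z_g/x) ≥ arctan(zc/x)` for the two `c` faces):
   `≥ u₀φ₀ + 4K∑ω + ∑_c c(φ-π/2) + ∑_c d + 2ν_a(deg-3)`.
 A2: V0A2, A2c, A2a, A2o: `≥ u₀φ₀ + 4K∑ω + c(φ-π/2) + d + a(φ-π/2) + ν_a`.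
 A3: V0A3, A3a, A3a, A3o: `≥ u₀φ₀ + 4K∑ω + ∑_a a(φ-π/2)`.
 B1: V1B1, B1c twice, B1o for the others: `≥ u₁φ₁ + 4K∑ω + ∑_c cφ - ∑_c d + ∑_a aφ + 2ν_b(deg-3)` (`a ≥ 0`, `φ ≥ 0`,
   so the `aφ` of an `o` face may be dropped).
 B2: V1B2, B2c, B2b, B2o: `≥ u₁φ₁ + 4K∑ω + cφ - d + ∑_a aφ + ν_b`. B3: V1B3, B2b, B2b, B2o: `≥ u₁φ₁ + 4K∑ω + ∑_a aφ`.
 Cc: VC0, VC1, Cc: `≥ u₀φ₀ + u₁φ₁ + 4K∑ω - Y₀ - Y₁ + c(φ-π/2)`; with bonus `+2κ` if `x ≤ xs` (VC0k, VC1k).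
 Cx: VX0, VX1, Cxa for `g`, Cxb for `g'`, and `t ≥ 4Kω` for the rest (`ω ≤ xz`, `2KZ ≤ 1`, `t ≥ 2x`):
   `≥ u₀φ₀ + u₁φ₁ + 4K∑ω - Y₀ - Y₁ + a(φ-π/2) + ν_a + ν_b`, with bonus `+2κ` if `x ≤ xs`.
Total. Class `c` face `g`: two vertices with `f₀`, none of them Cx; `c(z_g)(π - 2·π/2) = 0`. `d(z_g)`: once with
`+` for every vertex of type A on `g` (A1 or A2, as `g` is an `f₀`-neighbour there), once with `-` for every vertex of
type B on `g`; both numbers are `2 - #(vertices of g on f₀ ∩ f₁)`, so they cancel. Class `a` face: two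
vertices with `f₀`, of type A2, A3 or Cx (not Cc: degree 3 there); `a(z_g)(π - π) = 0`. Credits: by CNT for
`(f₀,f₁)` (`¬ExactAt f₀ f₁`): two vertices of type A2 or Cx, or one A1 vertex of degree `≥ 4`: at least `2ν_a`; the
same for `(f₁,f₀)`: at least `2ν_b`. Bonus at one common vertex with `x ≤ xs`: `2κ`. -/
def Stm_DN : Prop := ∀ (α β : Type) (V : Finset α) (F : Finset β) (I : α → β → Prop) (x : α → ℝ) (z : β → ℝ),
  Cfg V F I x z → ∀ (X Z zc xm K νa νb u₀ u₁ Y₀ Y₁ κ xs : ℝ)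
  (g a c d G H G2 H2 H2a G3 H3 GB HB GB2 HB2 K2 HC0 HC1 GC HCa HCb : ℝ → ℝ) (f₀ f₁ : β),
  f₀ ∈ F → f₁ ∈ F → AdjI V I f₀ f₁ → (∀ v ∈ V, x v ≤ X) → (∀ h ∈ F, h ≠ f₀ → h ≠ f₁ → z h ≤ Z) →
  0 < zc → 0 < xm →
  (∀ v ∈ V, I v f₀ → I v f₁ → xm ≤ x v) →
  (∀ h ∈ F, AdjI V I h f₀ → AdjI V I h f₁ → zc ≤ z h) →
  RowsE X Z zc xm K νa g a c d G H G2 H2 H2a G3 H3 GB HB HC0 HC1 GC (z f₀) →
  RowsEV X xm K νa (z f₀) (z f₁) u₀ u₁ Y₀ Y₁ κ xs G H G2 H2 H2a G3 H3 GB HB HC0 HC1 GC →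
  RowsN X Z zc xm K νa νb (z f₀) (z f₁) u₀ u₁ Y₀ Y₁ κ xs a c d GB GB2 HB2 K2 HCa HCb →
  (κ = 0 ∨ ∃ v ∈ V, I v f₀ ∧ I v f₁ ∧ x v ≤ xs) →
  ¬ ExactAt V F I f₀ f₁ → ¬ ExactAt V F I f₁ f₀ →
  Real.pi * (u₀ + u₁ + 4 * K) - 2 * (Y₀ + Y₁) + 2 * κ + 2 * νa + 2 * νb ≤ Len V F I x

/-- DX (discharging, `f₁` side exact, `f₀` side not). Proof: the same as DN; there are no faces of class `b`
and all vertices of `f₁` not on `f₀` have degree 3 with both `f₁`-neighbours of class `c` (type B1, no other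
faces); a vertex of type Cx would have `g'` of class `b`, so both common vertices are of type Cc. -/
def Stm_DX : Prop := ∀ (α β : Type) (V : Finset α) (F : Finset β) (I : α → β → Prop) (x : α → ℝ) (z : β → ℝ),
  Cfg V F I x z → ∀ (X Z zc xm K νa u₀ u₁ Y₀ Y₁ κ xs : ℝ)
  (g a c d G H G2 H2 H2a G3 H3 GB HB HC0 HC1 GC : ℝ → ℝ) (f₀ f₁ : β),
  f₀ ∈ F → f₁ ∈ F → AdjI V I f₀ f₁ → (∀ v ∈ V, x v ≤ X) → (∀ h ∈ F, h ≠ f₀ → h ≠ f₁ → z h ≤ Z) →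
  0 < zc → 0 < xm →
  (∀ v ∈ V, I v f₀ → I v f₁ → xm ≤ x v) →
  (∀ h ∈ F, AdjI V I h f₀ → AdjI V I h f₁ → zc ≤ z h) →
  RowsE X Z zc xm K νa g a c d G H G2 H2 H2a G3 H3 GB HB HC0 HC1 GC (z f₀) →
  RowsEV X xm K νa (z f₀) (z f₁) u₀ u₁ Y₀ Y₁ κ xs G H G2 H2 H2a G3 H3 GB HB HC0 HC1 GC →
  (κ = 0 ∨ ∃ v ∈ V, I v f₀ ∧ I v f₁ ∧ x v ≤ xs) →
  ¬ ExactAt V F I f₀ f₁ → ExactAt V F I f₁ f₀ →
  Real.pi * (u₀ + u₁ + 4 * K) - 2 * (Y₀ + Y₁) + 2 * κ + 2 * νa ≤ Len V F I x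

end

end Pool.Agent.Lib.MP_af06f6_co
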